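import Pool.Agent.NH86.HM.Par
import Pool.Agent.NH86.HD.Sng
import Pool.Agent.NH86.HD.Fin

/-!
# Small families depending on the ordinal: definitions (helper86, MP_e37c09_lc)
-/

set_option autoImplicit false

open Ordinal Cardinal Set

universe u

namespace Pool.Agent.NH86.HM

open Pool.Agent.NH86.HD

/-- `f` separates the elements of `a`: read as a map from `a` to the subsets of `g`, it is one-to-one -/
def Sep (a g f : ZFSet.{u}) : Prop :=
  ∀ x, x ∈ a → ∀ y, y ∈ a → (∀ i, i ∈ g → (ZFSet.pair x i ∈ f ↔ ZFSet.pair y i ∈ f)) → x = y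

/-- for some cardinal `m` and ordinals `t`, `g` with `(2 ^ m)⁺ < l`, `(2 ^ |V_ t|)⁺ < l`, `g < l`, every
`a < l` has a set `X` with at most `m` elements that is definable from ordinals and an element of `V_ t`
and has a member that, as a relation between `a` and `g`, is a one-to-one map from `a` to the power set
of `g` -/
def LocSmall (l : Cardinal.{u}) : Prop := ∃ (m : Cardinal.{u}) (t g : Ordinal.{u}),
  Order.succ (2 ^ m) < l ∧ Order.succ (2 ^ (ZFSet.vonNeumann t).card) < l ∧ g < l.ord ∧
  ∀ a < l.ord, ∃ x ∈ ZFSet.vonNeumann t, ∃ X : ZFSet.{u}, ODp x X ∧ X.card ≤ m ∧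
    ∃ f ∈ X, Sep a.toZFSet g.toZFSet f

/-- the successor of the cardinal `g` is computed correctly in HOD: every ordinal `a < g^+` is mapped in a
one-to-one way to the ordinals below `g` by an element of HOD -/
def SuccH (g : Cardinal.{u}) : Prop := ∀ a < (Order.succ g).ord, ∃ f : ZFSet.{u}, HOD f ∧
  (∀ i < a, ∃ j < g.ord, ZFSet.pair i.toZFSet j.toZFSet ∈ f) ∧
  ∀ x y z, ZFSet.pair x z ∈ f → ZFSet.pair y z ∈ f → x = y

/-- the statement (A): every singular cardinal above `d` is singular in HOD, and its successor is computed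
correctly in HOD -/
def HypA (d : Cardinal.{u}) : Prop := ∀ g : Cardinal.{u}, d < g → SingC g.ord → SingH g.ord ∧ SuccH g

/-- some regular cardinal above `d` is `LocSmall` -/
def LocAbove (d : Cardinal.{u}) : Prop := ∃ l : Cardinal.{u}, d < l ∧ l.IsRegular ∧ LocSmall l

end Pool.Agent.NH86.HM
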