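import Pool.Agent.NH49.EX.Blur
import Pool.Agent.NH86.HM.LDef

/-!
# Small families depending on the ordinal, and measurability in HOD (helper86, MP_e37c09_lc)
-/

set_option autoImplicit false

open Ordinal Cardinal Set

universe u

namespace Pool.Agent.NH86.HM

open Pool.Agent.NH86.HD

/-- for every `a < l` some ordinal definable set with at most `m` elements has a member that is, as a
relation between `a` and `g`, a one-to-one map from `a` to the power set of `g` -/
def LocFam (m : Cardinal.{u}) (l g : Ordinal.{u}) : Prop := ∀ a < l, ∃ X : ZFSet.{u}, OD X ∧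
  X.card ≤ m ∧ ∃ f ∈ X, Sep a.toZFSet g.toZFSet f

namespace Loc

theorem sep_mono {a a' g : Ordinal.{u}} (h : a ≤ a') {f : ZFSet.{u}}
    (hf : Sep a'.toZFSet g.toZFSet f) : Sep a.toZFSet g.toZFSet f :=
  fun x hx y hy hxy => hf x (toZFSet_subset_toZFSet_iff.2 h hx) y (toZFSet_subset_toZFSet_iff.2 h hy) hxy

theorem df_sep (a g f : ℕ) : Df.{u} fun s => Sep (s a) (s g) (s f) := by
  refine Df.all (R := fun x s => x ∈ s a → ∀ y, y ∈ s a →
    (∀ i, i ∈ s g → (ZFSet.pair x i ∈ s f ↔ ZFSet.pair y i ∈ s f)) → x = y) ?_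
  refine (Df.mem 0 (a + 1)).imp ?_
  refine Df.all (R := fun y s => y ∈ s (a + 1) →
    (∀ i, i ∈ s (g + 1) → (ZFSet.pair (s 0) i ∈ s (f + 1) ↔ ZFSet.pair y i ∈ s (f + 1))) → s 0 = y) ?_
  refine (Df.mem 0 (a + 1 + 1)).imp (Df.imp ?_ (Df.eq 1 0))
  refine Df.all (R := fun i s => i ∈ s (g + 1 + 1) →
    (ZFSet.pair (s 1) i ∈ s (f + 1 + 1) ↔ ZFSet.pair (s 0) i ∈ s (f + 1 + 1))) ?_
  exact (Df.mem 0 (g + 1 + 1 + 1)).imp
    ((Df.pairMem 2 0 (f + 1 + 1 + 1)).iff (Df.pairMem 1 0 (f + 1 + 1 + 1)))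

/-- the relation for the formula `φ`; variables: `X`, `a`, `m`, `g` and the parameters -/
def Rel (φ : Fm) (s : ℕ → ZFSet.{u}) : Prop :=
  (∀ z, Sat φ (cns z fun n => s (2 * n + 2)) ↔ z = s 0) ∧
    ((s 0).card ≤ (s 3).card ∧ ∃ f, f ∈ s 0 ∧ Sep (s 1) (s 5) f)

theorem df_rel (φ : Fm) : Df.{u} (Rel φ) := by
  refine Df.and ?_ (Df.and ?_ ?_)
  · refine Df.all (R := fun z s => Sat φ (cns z fun n => s (2 * n + 2)) ↔ z = s 0) ?_
    refine Df.iff ?_ (Df.eq 0 1)
    refine Df.congr (Df.ren (P := fun s => Sat φ s) ⟨φ, fun _ => Iff.rfl⟩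
      (cns 0 fun n => 2 * n + 3)) fun s => ?_
    have : (fun n => s (cns 0 (fun n => 2 * n + 3) n)) = cns (s 0) fun n => s (2 * n + 3) := by
      funext n
      cases n <;> rfl
    rw [this]
  · exact Df.sub2 (R := fun x y => x.card ≤ y.card) t_DCA 0 3
  · exact Df.ex (R := fun f s => f ∈ s 0 ∧ Sep (s 1) (s 5) f) ((Df.mem 0 1).and (df_sep 2 6 0))

theorem rel_iff (φ : Fm) (y : ZFSet.{u}) (t : ℕ → ZFSet.{u}) (p : ℕ → Ordinal.{u}) :
    Rel φ (cns y (mix t p)) ↔ (∀ z, Sat φ (cns z (oz p)) ↔ z = y) ∧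
      (y.card ≤ (t 1).card ∧ ∃ f, f ∈ y ∧ Sep (t 0) (t 2) f) := by
  unfold Rel
  rw [PG.sat_arg, PG.mix0, PG.mix2, Pool.Agent.NH49.EX.Blur.mix4]
  rfl

theorem rel_fun (φ : Fm) (t : ℕ → ZFSet.{u}) (p : ℕ → Ordinal.{u}) (y y' : ZFSet.{u})
    (h : Rel φ (cns y (mix t p))) (h' : Rel φ (cns y' (mix t p))) : y = y' := by
  rw [rel_iff] at h h'
  exact (h'.1 y).1 ((h.1 y).2 rfl)

/-- the parameters -/
noncomputable def pr (m : Cardinal.{u}) (g : Ordinal.{u}) : ℕ → Ordinal.{u} := cns m.ord (cns g fun _ => 0)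

/-- a uniform choice of the families -/
theorem exists_family {m l : Cardinal.{u}} {g : Ordinal.{u}} (hl : l.IsRegular) (h0 : ℵ₀ < l)
    (h : LocFam m l.ord g) :
    ∃ (R' : (ℕ → ZFSet.{u}) → Prop) (F : Ordinal.{u} → ZFSet.{u}), Df R' ∧
      ∀ a < l.ord, (∀ y, R' (cns y (oz (cns a (pr m g)))) ↔ y = F a) ∧
        (F a).card ≤ m ∧ ∃ f ∈ F a, Sep a.toZFSet g.toZFSet f := by
  obtain ⟨φ, hφ⟩ := Pool.Agent.NH49.EX.Blur.pigeon hl h0 (fun φ a => ∃ (p : ℕ → Ordinal.{u}) (X : ZFSet.{u}),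
    (∀ z, Sat φ (cns z (oz p)) ↔ z = X) ∧ X.card ≤ m ∧
      ∃ f ∈ X, Sep a.toZFSet g.toZFSet f) (by
    intro a ha
    obtain ⟨X, ⟨φ, p, hφ⟩, hX, f, hf, hf'⟩ := h a ha
    exact ⟨φ, p, X, hφ, hX, f, hf, hf'⟩)
  obtain ⟨R', hR', h1, h2, h3⟩ := t_UNI (Rel φ) (df_rel φ) (rel_fun φ)
  have t0 : ∀ a : Ordinal.{u}, oz (cns a (pr m g)) 0 = a.toZFSet := fun a => rfl
  have t1 : ∀ a : Ordinal.{u}, (oz (cns a (pr m g)) 1).card = m := by
    intro a
    change (m.ord.toZFSet).card = m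
    rw [Ordinal.card_toZFSet, Cardinal.card_ord]
  have t2 : ∀ a : Ordinal.{u}, oz (cns a (pr m g)) 2 = g.toZFSet := fun a => rfl
  have hex : ∀ a, ∃ y, a < l.ord → R' (cns y (oz (cns a (pr m g)))) := by
    intro a
    by_cases ha : a < l.ord
    · obtain ⟨a', haa', -, p, X, hX, hXm, f, hf, hfi⟩ := hφ a ha
      obtain ⟨y, hy⟩ := h3 (oz (cns a (pr m g))) ⟨p, X, by
        rw [rel_iff]
        refine ⟨hX, ?_, f, hf, ?_⟩
        · rw [t1]
          exact hXm
        · rw [t0, t2]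
          exact sep_mono haa'.le hfi⟩
      exact ⟨y, fun _ => hy⟩
    · exact ⟨∅, fun h => absurd h ha⟩
  choose F hF using hex
  refine ⟨R', F, hR', fun a ha => ⟨fun y => ⟨fun h => h2 _ _ _ h (hF a ha), ?_⟩, ?_⟩⟩
  · rintro rfl
    exact hF a ha
  · obtain ⟨p, hp⟩ := h1 _ _ (hF a ha)
    rw [rel_iff, t1, t0, t2] at hp
    exact hp.2

/-! ### Relations between ordinals, definable from a fixed sequence of ordinals -/

/-- two sequences of sets in one -/
def mz (s p : ℕ → ZFSet.{u}) (n : ℕ) : ZFSet.{u} := if n % 2 = 0 then s (n / 2) else p (n / 2)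

theorem mz_even (s p : ℕ → ZFSet.{u}) (n : ℕ) : mz s p (2 * n) = s n := by
  have h1 : 2 * n % 2 = 0 := by omega
  have h2 : 2 * n / 2 = n := by omega
  rw [mz, if_pos h1, h2]

theorem mz_odd (s p : ℕ → ZFSet.{u}) (n : ℕ) : mz s p (2 * n + 1) = p n := by
  have h1 : ¬ (2 * n + 1) % 2 = 0 := by omega
  have h2 : (2 * n + 1) / 2 = n := by omega
  rw [mz, if_neg h1, h2]

/-- the relation `R` is definable from the ordinals in the sequence `p` -/
def ODR (p : ℕ → Ordinal.{u}) (R : (ℕ → Ordinal.{u}) → Prop) : Prop :=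
  ∃ P : (ℕ → ZFSet.{u}) → Prop, Df P ∧ ∀ s, R s ↔ P (mz (oz s) (oz p))

variable {p : ℕ → Ordinal.{u}} {R R' : (ℕ → Ordinal.{u}) → Prop}

theorem ODR.not (h : ODR p R) : ODR p fun s => ¬ R s := by
  obtain ⟨P, hP, h⟩ := h
  exact ⟨_, hP.not, fun s => not_congr (h s)⟩

theorem ODR.and (h : ODR p R) (h' : ODR p R') : ODR p fun s => R s ∧ R' s := by
  obtain ⟨P, hP, h⟩ := h
  obtain ⟨Q, hQ, h'⟩ := h'
  exact ⟨_, hP.and hQ, fun s => and_congr (h s) (h' s)⟩

theorem ODR.imp (h : ODR p R) (h' : ODR p R') : ODR p fun s => R s → R' s := by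
  obtain ⟨P, hP, h⟩ := h
  obtain ⟨Q, hQ, h'⟩ := h'
  exact ⟨_, hP.imp hQ, fun s => imp_congr (h s) (h' s)⟩

theorem ODR.ren (h : ODR p R) (f : ℕ → ℕ) : ODR p fun s => R fun n => s (f n) := by
  obtain ⟨P, hP, h⟩ := h
  refine ⟨_, hP.ren fun n => if n % 2 = 0 then 2 * f (n / 2) else n, fun s => (h _).trans ?_⟩
  have : mz (oz fun n => s (f n)) (oz p) =
      fun n => mz (oz s) (oz p) (if n % 2 = 0 then 2 * f (n / 2) else n) := by
    funext n
    by_cases hn : n % 2 = 0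
    · rw [if_pos hn, mz_even, mz, if_pos hn]
      rfl
    · rw [if_neg hn, mz, mz, if_neg hn, if_neg hn]
  rw [this]

/-- index function for one more variable -/
def ix (c n : ℕ) : ℕ := if n = 0 then 0 else if n % 2 = 0 then n - 2 + c else n + c

theorem mz_cns (a : ZFSet.{u}) (s p t : ℕ → ZFSet.{u}) (c : ℕ) (h0 : t 0 = a)
    (h : ∀ n, t (n + c) = mz s p n) : mz (cns a s) p = fun n => t (ix c n) := by
  funext n
  unfold ix
  by_cases hn : n = 0
  · subst hn
    rw [if_pos rfl, h0]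
    rfl
  · rw [if_neg hn]
    by_cases hn2 : n % 2 = 0
    · rw [if_pos hn2, h]
      obtain ⟨k, rfl⟩ : ∃ k, n = 2 * (k + 1) := ⟨n / 2 - 1, by omega⟩
      have e : 2 * (k + 1) - 2 = 2 * k := by omega
      rw [mz_even, e, mz_even]
      rfl
    · rw [if_neg hn2, h]
      rw [mz, mz, if_neg hn2, if_neg hn2]

theorem ODR.all (h : ODR p R) : ODR p fun s => ∀ a : Ordinal.{u}, R (cns a s) := by
  obtain ⟨P, hP, h⟩ := h
  refine ⟨fun v => ∀ a : Ordinal.{u}, P (fun n => (cns a.toZFSet v : ℕ → ZFSet.{u}) (ix 1 n)), ?_, ?_⟩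
  · refine Df.allOrd (R := fun a v => P (fun n => (cns a v : ℕ → ZFSet.{u}) (ix 1 n))) ?_
    refine (hP.ren (ix 1)).congr fun s => ?_
    have : (fun n => s (ix 1 n)) = fun n => (cns (s 0) (fun n => s (n + 1)) : ℕ → ZFSet.{u}) (ix 1 n) := by
      rw [cns_eta]
    rw [this]
  · intro s
    refine forall_congr' fun a => (h _).trans ?_
    rw [oz_cns, mz_cns a.toZFSet (oz s) (oz p) (cns a.toZFSet (mz (oz s) (oz p))) 1 rfl fun n => rfl]

/-- the relation `toZ l {a | R (cns a s)} ∈ U` -/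
def MemU (l : Ordinal.{u}) (U : ZFSet.{u}) (R : (ℕ → Ordinal.{u}) → Prop) (s : ℕ → Ordinal.{u}) : Prop :=
  toZ l {a | R (cns a s)} ∈ U

theorem ODR.mem {l : Ordinal.{u}} {U : ZFSet.{u}} {ψ : Fm} {q r : ℕ → Ordinal.{u}}
    (hψ : ∀ y, Sat ψ (cns y (oz q)) ↔ y = U) (h : ODR (mx (cns l r) q) R) :
    ODR (mx (cns l r) q) (MemU l U R) := by
  obtain ⟨P, hP, h⟩ := h
  refine ⟨fun v => ∃ W, Sat ψ (cns W fun n => v (4 * n + 3)) ∧ ∃ w, w ∈ W ∧
    ∀ a, a ∈ w ↔ (a ∈ v 1 ∧ P (fun n => (cns a v : ℕ → ZFSet.{u}) (ix 1 n))), ?_, ?_⟩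
  · refine Df.ex (R := fun W v => Sat ψ (cns W fun n => v (4 * n + 3)) ∧ ∃ w, w ∈ W ∧
      ∀ a, a ∈ w ↔ (a ∈ v 1 ∧ P (fun n => (cns a v : ℕ → ZFSet.{u}) (ix 1 n)))) ?_
    refine (dfSat ψ fun n => 4 * n + 3).and ?_
    refine Df.ex (R := fun w s => w ∈ s 0 ∧ ∀ a, a ∈ w ↔ (a ∈ s (1 + 1) ∧
      P (fun n => (cns a (fun n => s (n + 1)) : ℕ → ZFSet.{u}) (ix 1 n)))) ?_
    refine (Df.mem 0 1).and ?_
    refine Df.all (R := fun a s => a ∈ s 0 ↔ (a ∈ s (1 + 1 + 1) ∧
      P (fun n => (cns a (fun n => s (n + 1 + 1)) : ℕ → ZFSet.{u}) (ix 1 n)))) ?_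
    refine (Df.mem 0 1).iff ((Df.mem 0 (1 + 1 + 1 + 1)).and ?_)
    refine (hP.ren (ix 3)).congr fun s => ?_
    have : (fun n => s (ix 3 n)) =
        fun n => (cns (s 0) (fun n => s (n + 1 + 1 + 1)) : ℕ → ZFSet.{u}) (ix 1 n) := by
      funext n
      unfold ix
      by_cases hn : n = 0
      · rw [if_pos hn, if_pos hn]
        rfl
      · rw [if_neg hn, if_neg hn]
        by_cases hn2 : n % 2 = 0
        · rw [if_pos hn2, if_pos hn2]
          rfl
        · rw [if_neg hn2, if_neg hn2]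
          rfl
    rw [this]
  · intro s
    set v := mz (oz s) (oz (mx (cns l r) q)) with hv
    have e1 : (fun n => v (4 * n + 3)) = oz q := by
      funext n
      have e : 4 * n + 3 = 2 * (2 * n + 1) + 1 := by omega
      rw [hv, e, mz_odd]
      show (mx (cns l r) q (2 * n + 1)).toZFSet = (q n).toZFSet
      rw [mx_odd]
    have e2 : v 1 = l.toZFSet := rfl
    have e3 : ∀ a : Ordinal.{u}, P (fun n => (cns a.toZFSet v : ℕ → ZFSet.{u}) (ix 1 n)) ↔ R (cns a s) := by
      intro a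
      rw [h, oz_cns, mz_cns a.toZFSet (oz s) (oz (mx (cns l r) q)) (cns a.toZFSet v) 1 rfl fun n => rfl]
    have e4 : ∀ w : ZFSet.{u}, (∀ a, a ∈ w ↔ (a ∈ v 1 ∧
        P (fun n => (cns a v : ℕ → ZFSet.{u}) (ix 1 n)))) ↔ w = toZ l {a | R (cns a s)} := by
      intro w
      rw [ZFSet.ext_iff]
      refine forall_congr' fun a => iff_congr Iff.rfl ?_
      rw [mem_toZ, e2, mem_toZFSet_iff]
      constructor
      · rintro ⟨⟨c, hc, rfl⟩, h⟩
        exact ⟨c, hc, (e3 c).1 h, rfl⟩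
      · rintro ⟨c, hc, h, rfl⟩
        exact ⟨⟨c, hc, rfl⟩, (e3 c).2 h⟩
    show toZ l {a | R (cns a s)} ∈ U ↔ ∃ W, Sat ψ (cns W fun n => v (4 * n + 3)) ∧ ∃ w, w ∈ W ∧
      ∀ a, a ∈ w ↔ (a ∈ v 1 ∧ P (fun n => (cns a v : ℕ → ZFSet.{u}) (ix 1 n)))
    rw [e1]
    constructor
    · intro h
      exact ⟨U, (hψ U).2 rfl, _, h, (e4 _).2 rfl⟩
    · rintro ⟨W, hW, w, hw, h⟩
      rw [(hψ W).1 hW] at hw
      rw [← (e4 w).1 h]
      exact hw

theorem ODR.lt (i j : ℕ) : ODR p fun s => s i < s j := by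
  refine ⟨fun v => v (2 * i) ∈ v (2 * j), Df.mem _ _, fun s => ?_⟩
  show s i < s j ↔ mz (oz s) (oz p) (2 * i) ∈ mz (oz s) (oz p) (2 * j)
  rw [mz_even, mz_even]
  exact toZFSet_mem_toZFSet_iff.symm

theorem ODR.hod_sq (h : ODR p R) (L k : Ordinal.{u}) (s₀ : ℕ → Ordinal.{u}) :
    HOD (sq L k fun i => {a | R (cns i (cns a s₀))}) := by
  obtain ⟨P, hP, h⟩ := h
  refine HPJob.hod_sq (hP.ren fun n => if n = 0 then 0 else if n = 2 then 1 else
    if n % 2 = 0 then n - 2 else n + 2) (p := mx s₀ p) fun i _ a _ => (h _).trans ?_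
  have : mz (oz (cns i (cns a s₀))) (oz p) = fun n => oz (cns i (cns a (mx s₀ p)))
      (if n = 0 then 0 else if n = 2 then 1 else if n % 2 = 0 then n - 2 else n + 2) := by
    funext n
    by_cases h0 : n = 0
    · subst h0
      rfl
    · rw [if_neg h0]
      by_cases h2 : n = 2
      · subst h2
        rfl
      · rw [if_neg h2]
        by_cases hn : n % 2 = 0
        · rw [if_pos hn]
          obtain ⟨k, rfl⟩ : ∃ k, n = 2 * (k + 2) := ⟨n / 2 - 2, by omega⟩
          have e : 2 * (k + 2) - 2 = 2 * k + 2 := by omega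
          rw [mz_even, e]
          show (s₀ k).toZFSet = (mx s₀ p (2 * k)).toZFSet
          rw [mx_even]
        · rw [if_neg hn]
          obtain ⟨k, rfl⟩ : ∃ k, n = 2 * k + 1 := ⟨n / 2, by omega⟩
          rw [mz_odd]
          show (p k).toZFSet = (mx s₀ p (2 * k + 1)).toZFSet
          rw [mx_odd]
  rw [this]

theorem ODR.hod_Z (h : ODR p R) (L : Ordinal.{u}) (s₀ : ℕ → Ordinal.{u}) :
    HOD (toZ L {a | R (cns a s₀)}) := by
  obtain ⟨P, hP, h⟩ := h.ren fun n => n + 1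
  refine HPJob.hod_Z (S := fun _ => {a | R (cns a s₀)}) (k := 1) (i := 0)
    (hP.ren fun n => if n = 0 then 0 else if n = 2 then 1 else
    if n % 2 = 0 then n - 2 else n + 2) (p := mx s₀ p) (fun i _ a _ => (h (cns i (cns a s₀))).trans ?_)
    zero_lt_one
  have : mz (oz (cns i (cns a s₀))) (oz p) = fun n => oz (cns i (cns a (mx s₀ p)))
      (if n = 0 then 0 else if n = 2 then 1 else if n % 2 = 0 then n - 2 else n + 2) := by
    funext n
    by_cases h0 : n = 0
    · subst h0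
      rfl
    · rw [if_neg h0]
      by_cases h2 : n = 2
      · subst h2
        rfl
      · rw [if_neg h2]
        by_cases hn : n % 2 = 0
        · rw [if_pos hn]
          obtain ⟨k, rfl⟩ : ∃ k, n = 2 * (k + 2) := ⟨n / 2 - 2, by omega⟩
          have e : 2 * (k + 2) - 2 = 2 * k + 2 := by omega
          rw [mz_even, e]
          show (s₀ k).toZFSet = (mx s₀ p (2 * k)).toZFSet
          rw [mx_even]
        · rw [if_neg hn]
          obtain ⟨k, rfl⟩ : ∃ k, n = 2 * k + 1 := ⟨n / 2, by omega⟩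
          rw [mz_odd]
          show (p k).toZFSet = (mx s₀ p (2 * k + 1)).toZFSet
          rw [mx_odd]
  rw [this]

/-- the relation for the families -/
def TR (S : (ℕ → ZFSet.{u}) → Prop) (r : ℕ → Ordinal.{u}) (s : ℕ → Ordinal.{u}) : Prop :=
  ∃ X, S (cns X (oz (cns (s 0) r))) ∧ ∀ F, F ∈ X →
    (ZFSet.pair (s 1).toZFSet (s 3).toZFSet ∈ F ↔ ZFSet.pair (s 2).toZFSet (s 3).toZFSet ∈ F)

theorem odr_TR {S : (ℕ → ZFSet.{u}) → Prop} (hS : Df S) (l : Ordinal.{u}) (r q : ℕ → Ordinal.{u}) :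
    ODR (mx (cns l r) q) (TR S r) := by
  refine ⟨fun v => ∃ X, S (cns X (cns (v 0) fun n => v (4 * n + 5))) ∧ ∀ F, F ∈ X →
    (ZFSet.pair (v 2) (v 6) ∈ F ↔ ZFSet.pair (v 4) (v 6) ∈ F), ?_, ?_⟩
  · refine Df.ex (R := fun X v => S (cns X (cns (v 0) fun n => v (4 * n + 5))) ∧ ∀ F, F ∈ X →
      (ZFSet.pair (v 2) (v 6) ∈ F ↔ ZFSet.pair (v 4) (v 6) ∈ F)) ?_
    refine Df.and ?_ (dfCls 0 3 5 7)
    refine (hS.ren (cns 0 (cns 1 fun n => 4 * n + 5 + 1))).congr fun s => ?_
    have e : (fun n => s ((cns 0 (cns 1 fun n => 4 * n + 5 + 1) : ℕ → ℕ) n)) =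
        cns (s 0) (cns (s 1) fun n => s (4 * n + 5 + 1)) := by
      funext n
      rcases n with _ | _ | n <;> rfl
    rw [e]
  · intro s
    have e1 : (fun n => mz (oz s) (oz (mx (cns l r) q)) (4 * n + 5)) = oz r := by
      funext n
      have e : 4 * n + 5 = 2 * (2 * (n + 1)) + 1 := by omega
      rw [e, mz_odd]
      show (mx (cns l r) q (2 * (n + 1))).toZFSet = (r n).toZFSet
      rw [mx_even]
      rfl
    show TR S r s ↔ ∃ X, S (cns X (cns (mz (oz s) (oz (mx (cns l r) q)) 0)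
      fun n => mz (oz s) (oz (mx (cns l r) q)) (4 * n + 5))) ∧ ∀ F, F ∈ X →
      (ZFSet.pair (mz (oz s) (oz (mx (cns l r) q)) 2) (mz (oz s) (oz (mx (cns l r) q)) 6) ∈ F ↔
        ZFSet.pair (mz (oz s) (oz (mx (cns l r) q)) 4) (mz (oz s) (oz (mx (cns l r) q)) 6) ∈ F)
    rw [e1]
    unfold TR
    rw [oz_cns]
    exact Iff.rfl

/-! ### The argument -/

theorem toZ_congr {l : Ordinal.{u}} {A B : Set Ordinal.{u}} (h : ∀ a < l, (a ∈ A ↔ a ∈ B)) :
    toZ l A = toZ l B := by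
  ext x
  rw [mem_toZ, mem_toZ]
  exact exists_congr fun a => and_congr_right fun ha => and_congr_left fun _ => h a ha

theorem toZ_sub (l : Ordinal.{u}) (A : Set Ordinal.{u}) : toZ l A ⊆ l.toZFSet := by
  intro x hx
  obtain ⟨a, ha, _, rfl⟩ := mem_toZ.1 hx
  exact mem_toZFSet_iff.2 ⟨a, ha, rfl⟩

theorem compl_mem {l : Ordinal.{u}} {U : ZFSet.{u}} (hU : MeasU l U) {A : Set Ordinal.{u}}
    (hA : HOD (toZ l A)) (h : toZ l A ∉ U) : toZ l Aᶜ ∈ U := by
  have e : l.toZFSet \ toZ l A = toZ l Aᶜ := by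
    ext x
    rw [ZFSet.mem_sdiff, mem_toZ, mem_toZ, mem_toZFSet_iff]
    constructor
    · rintro ⟨⟨a, ha, rfl⟩, h⟩
      exact ⟨a, ha, fun h' => h ⟨a, ha, h', rfl⟩, rfl⟩
    · rintro ⟨a, ha, h, rfl⟩
      refine ⟨⟨a, ha, rfl⟩, ?_⟩
      rintro ⟨b, _, h', hb⟩
      rw [toZFSet_injective hb] at h'
      exact h h'
  rw [← e]
  by_contra hc
  exact h ((hU.ult _ hA (toZ_sub l A)).2 hc)

theorem meet {l : Ordinal.{u}} {U : ZFSet.{u}} (hl : 2 < l) (hU : MeasU l U) {A B : Set Ordinal.{u}}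
    (hA : toZ l A ∈ U) (hB : toZ l B ∈ U) : ∃ a < l, a ∈ A ∧ a ∈ B := by
  by_contra hn
  push Not at hn
  have h := inter_mem hl hU hA hB
  have e : toZ l A ∩ toZ l B = (∅ : ZFSet.{u}) := by
    rw [ZFSet.eq_empty]
    intro x hx
    rw [ZFSet.mem_inter, mem_toZ, mem_toZ] at hx
    obtain ⟨⟨a, ha, h1, rfl⟩, b, _, h2, hb⟩ := hx
    rw [toZFSet_injective hb] at h2
    exact hn a ha h1 h2
  rw [e] at h
  exact empty_notMem (two_pos.trans hl) hU h

theorem exists_ty (X : ZFSet.{u}) (i : Ordinal.{u}) :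
    ∃ ty : Ordinal.{u} → Set (Shrink.{u} X), ∀ a b, ty a = ty b → a ∈ Cl X i b := by
  refine ⟨fun a => {j | ZFSet.pair a.toZFSet i.toZFSet ∈ ((equivShrink X).symm j : ZFSet.{u})}, ?_⟩
  intro a b h F hF
  have h1 : (equivShrink X ⟨F, hF⟩ ∈ {j | ZFSet.pair a.toZFSet i.toZFSet ∈
      ((equivShrink X).symm j : ZFSet.{u})}) ↔ (equivShrink X ⟨F, hF⟩ ∈ {j | ZFSet.pair b.toZFSet
      i.toZFSet ∈ ((equivShrink X).symm j : ZFSet.{u})}) := Set.ext_iff.1 h _
  have h2 : ∀ c : Ordinal.{u}, (equivShrink X ⟨F, hF⟩ ∈ {j | ZFSet.pair c.toZFSet i.toZFSet ∈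
      ((equivShrink X).symm j : ZFSet.{u})}) ↔ ZFSet.pair c.toZFSet i.toZFSet ∈ F := by
    intro c
    show ZFSet.pair c.toZFSet i.toZFSet ∈
      ((equivShrink X).symm (equivShrink X ⟨F, hF⟩) : ZFSet.{u}) ↔ _
    rw [Equiv.symm_apply_apply]
  rw [h2, h2] at h1
  exact h1

/-- the number of classes -/
theorem count {X : ZFSet.{u}} {m : Cardinal.{u}} (hX : X.card ≤ m) (i : Ordinal.{u})
    (f : Ordinal.{u} → Ordinal.{u})
    (h : ∀ j < (Order.succ ((2 : Cardinal.{u}) ^ m)).ord, ∀ j' < (Order.succ ((2 : Cardinal.{u}) ^ m)).ord, f j ∈ Cl X i (f j') → j = j') :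
    False := by
  obtain ⟨ty, hty⟩ := exists_ty X i
  have h1 := Cardinal.lift_mk_le_lift_mk_of_injective
    (f := fun j : Set.Iio (Order.succ ((2 : Cardinal.{u}) ^ m)).ord => ty (f j.1)) (by
      intro j j' hj
      exact Subtype.ext (h j.1 j.2 j'.1 j'.2 (hty _ _ hj)))
  rw [Cardinal.mk_Iio_ordinal, mk_set, card_ord] at h1
  have h2 : Order.succ ((2 : Cardinal.{u}) ^ m) ≤ 2 ^ #(Shrink.{u} X) := by
    rw [Cardinal.lift_lift] at h1
    exact Cardinal.lift_le.1 h1
  exact absurd (h2.trans (Cardinal.power_le_power_left two_ne_zero hX)) (not_le.2 (Order.lt_succ _))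

theorem core {l : Cardinal.{u}} (hl : l.IsRegular) (h0 : ℵ₀ < l) {m : Cardinal.{u}}
    (hm : Order.succ (2 ^ m) < l) {g : Ordinal.{u}} (hg : g < l.ord) (h : LocFam m l.ord g) :
    ¬ MeasH l.ord := by
  rintro ⟨U, hU⟩
  obtain ⟨S, F, hS, hF⟩ := exists_family hl h0 h
  obtain ⟨ψ, q, hψ⟩ := hod_od hU.hod
  obtain ⟨z, hz⟩ : ∃ z : ℕ → Ordinal.{u}, z = fun _ => 0 := ⟨_, rfl⟩
  have hω : Ordinal.omega0 ≤ l.ord := by
    rw [← ord_aleph0]
    exact ord_le_ord.2 hl.aleph0_le
  have h2l : (2 : Ordinal.{u}) < l.ord := lt_of_lt_of_le (natCast_lt_omega0 2) hω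
  have h0l : (0 : Ordinal.{u}) < l.ord := two_pos.trans h2l
  have hlim : Order.IsSuccLimit l.ord := isSuccLimit_ord hl.aleph0_le
  have hT : ODR (mx (cns l.ord (pr m g)) q) (TR S (pr m g)) := odr_TR hS l.ord (pr m g) q
  have hE : ODR (mx (cns l.ord (pr m g)) q) (MemU l.ord U (TR S (pr m g))) := ODR.mem hψ hT
  have hEE : ODR (mx (cns l.ord (pr m g)) q) (MemU l.ord U (MemU l.ord U (TR S (pr m g)))) :=
    ODR.mem hψ hE
  have T_iff : ∀ a < l.ord, ∀ b c i s', TR S (pr m g) (cns a (cns b (cns c (cns i s')))) ↔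
      b ∈ Cl (F a) i c := by
    intro a ha b c i s'
    show (∃ X, S (cns X (oz (cns a (pr m g)))) ∧ ∀ F, F ∈ X →
      (ZFSet.pair b.toZFSet i.toZFSet ∈ F ↔ ZFSet.pair c.toZFSet i.toZFSet ∈ F)) ↔ _
    constructor
    · rintro ⟨X, hX, h⟩
      have := ((hF a ha).1 X).1 hX
      subst this
      exact h
    · intro h
      exact ⟨F a, ((hF a ha).1 _).2 rfl, h⟩
  obtain ⟨Ex, hEx⟩ : ∃ Ex : Ordinal.{u} → Ordinal.{u} → Ordinal.{u} → Prop,
      ∀ b c i, Ex b c i ↔ toZ l.ord {a | b ∈ Cl (F a) i c} ∈ U := ⟨_, fun _ _ _ => Iff.rfl⟩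
  have T_set : ∀ b c i s', toZ l.ord {a | TR S (pr m g) (cns a (cns b (cns c (cns i s'))))} =
      toZ l.ord {a | b ∈ Cl (F a) i c} := fun b c i s' => toZ_congr fun a ha => T_iff a ha b c i s'
  have E_iff : ∀ b c i s', MemU l.ord U (TR S (pr m g)) (cns b (cns c (cns i s'))) ↔ Ex b c i := by
    intro b c i s'
    rw [hEx, ← T_set b c i s']
    exact Iff.rfl
  have EE_iff : ∀ b i s', MemU l.ord U (MemU l.ord U (TR S (pr m g))) (cns b (cns i s')) ↔
      toZ l.ord {c | Ex c b i} ∈ U := by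
    intro b i s'
    have e : toZ l.ord {c | MemU l.ord U (TR S (pr m g)) (cns c (cns b (cns i s')))} =
      toZ l.ord {c | Ex c b i} := toZ_congr fun c _ => E_iff c b i s'
    rw [← e]
    exact Iff.rfl
  have T_hod : ∀ b c i, HOD (toZ l.ord {a | b ∈ Cl (F a) i c}) := by
    intro b c i
    have := hT.hod_Z l.ord (cns b (cns c (cns i z)))
    rwa [T_set] at this
  have refl : ∀ b i, Ex b b i := by
    intro b i
    rw [hEx]
    have e : toZ l.ord {a | b ∈ Cl (F a) i b} = l.ord.toZFSet := by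
      ext x
      rw [mem_toZ, mem_toZFSet_iff]
      constructor
      · rintro ⟨a, ha, _, rfl⟩
        exact ⟨a, ha, rfl⟩
      · rintro ⟨a, ha, rfl⟩
        exact ⟨a, ha, Cl_self _ _ _, rfl⟩
    rw [e]
    exact top_mem h0l hU
  have symm : ∀ b c i, Ex b c i → Ex c b i := by
    intro b c i h
    rw [hEx] at h ⊢
    have e : {a | c ∈ Cl (F a) i b} = {a | b ∈ Cl (F a) i c} := by
      ext a
      exact ⟨Cl_symm, Cl_symm⟩
    rw [e]
    exact h
  have trans : ∀ b c d i, Ex b c i → Ex c d i → Ex b d i := by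
    intro b c d i h1 h2
    rw [hEx] at h1 h2 ⊢
    refine up_mem h2l hU (inter_mem h2l hU h1 h2) ?_ (toZ_sub _ _) (T_hod b d i)
    intro x hx
    rw [ZFSet.mem_inter, mem_toZ, mem_toZ] at hx
    obtain ⟨⟨a, ha, h1, rfl⟩, b, _, h2, hb⟩ := hx
    rw [toZFSet_injective hb] at h2
    exact mem_toZ.2 ⟨a, ha, Cl_trans h1 h2, rfl⟩
  -- Step A
  have stepA : ∀ i, ∃ β < l.ord, ∀ c < l.ord, ∃ d < β, Ex c d i := by
    intro i
    by_contra hn
    push Not at hn
    obtain ⟨D, hD⟩ : ∃ D : Set Ordinal.{u}, D = {c | ∀ d < c, ¬ Ex c d i} := ⟨_, rfl⟩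
    have hunb : ∀ b < l.ord, ∃ x ∈ D, b < x ∧ x < l.ord := by
      intro b hb
      obtain ⟨c, hcl, hc⟩ := hn (Order.succ b) (hlim.succ_lt hb)
      obtain ⟨x, hx⟩ : ∃ x, x = sInf {x | Ex c x i} := ⟨_, rfl⟩
      have hx1 : Ex c x i := by
        have := csInf_mem (s := {x | Ex c x i}) ⟨c, refl c i⟩
        rw [← hx] at this
        exact this
      have hx2 : ∀ y, Ex c y i → x ≤ y := by
        intro y hy
        rw [hx]
        exact csInf_le' (s := {x | Ex c x i}) hy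
      refine ⟨x, ?_, ?_, (hx2 c (refl c i)).trans_lt hcl⟩
      · rw [hD]
        intro d hd hxd
        exact absurd hd (not_lt.2 (hx2 d (trans _ _ _ _ hx1 hxd)))
      · by_contra hbx
        exact hc x ((not_lt.1 hbx).trans_lt (Order.lt_succ b)) hx1
    obtain ⟨t, ht, -⟩ := t_NTH l hl D hunb
    obtain ⟨-, hβ, f, hf, hfD⟩ := ht (Order.succ ((2 : Cardinal.{u}) ^ m)).ord (ord_lt_ord.2 hm)
    obtain ⟨β, hβe⟩ : ∃ β, β = t (Order.succ ((2 : Cardinal.{u}) ^ m)).ord := ⟨_, rfl⟩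
    rw [← hβe] at hβ hfD
    have hQ : ODR (mx (cns l.ord (pr m g)) q) fun s => TR S (pr m g) s →
        MemU l.ord U (TR S (pr m g)) fun n => s (n + 1) := hT.imp (hE.ren fun n => n + 1)
    have hfin := hU.comp β hβ (fun c => {a | ∀ d < β,
      TR S (pr m g) (cns a (cns c (cns d (cns i (cns β z))))) → Ex c d i}) ?_ ?_
    · obtain ⟨a, -, ha⟩ := unbounded hl hU hfin 0 h0l
      obtain ⟨a', hal, ha2, ha3⟩ := mem_toZ.1 ha
      rw [toZFSet_injective ha3] at hal ha2
      have hmem : ∀ j < (Order.succ ((2 : Cardinal.{u}) ^ m)).ord, f j ∈ D ∧ f j < β := by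
        intro j hj
        have : f j ∈ D ∩ Set.Iio β := by
          rw [hfD]
          exact ⟨j, hj, rfl⟩
        exact this
      refine count (hF a hal).2.1 i f fun j hj j' hj' hjj => ?_
      obtain ⟨h1, h2⟩ := hmem j hj
      obtain ⟨h3, h4⟩ := hmem j' hj'
      rw [hD] at h1 h3
      have h5 : Ex (f j) (f j') i := ha2 (f j) h2 (f j') h4 ((T_iff a hal _ _ _ _).2 hjj)
      rcases lt_trichotomy (f j) (f j') with h | h | h
      · exact absurd (symm _ _ _ h5) (h3 _ h)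
      · exact hf.injOn hj hj' h
      · exact absurd h5 (h1 _ h)
    · have := ((ODR.lt 0 4).imp (hQ.ren fun n => if n = 0 then 2 else if n = 1 then 1 else
        if n = 2 then 0 else n)).all.hod_sq l.ord β (cns i (cns β z))
      have e : ∀ d c a : Ordinal.{u}, (fun n => (cns d (cns c (cns a (cns i (cns β z)))) :
          ℕ → Ordinal.{u}) (if n = 0 then 2 else if n = 1 then 1 else
          if n = 2 then 0 else n)) = cns a (cns c (cns d (cns i (cns β z)))) := by
        intro d c a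
        funext n
        rcases n with _ | _ | _ | n <;> rfl
      have e' : ∀ d c a : Ordinal.{u}, (fun n => (fun n => (cns d (cns c (cns a (cns i (cns β z)))) :
          ℕ → Ordinal.{u}) (if n = 0 then 2 else if n = 1 then 1 else
          if n = 2 then 0 else n)) (n + 1)) = cns c (cns d (cns i (cns β z))) := by
        intro d c a
        rw [e]
        rfl
      have e3 : (fun c : Ordinal.{u} => {a : Ordinal.{u} | ∀ d : Ordinal.{u},
          (cns d (cns c (cns a (cns i (cns β z)))) : ℕ → Ordinal.{u}) 0 <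
          (cns d (cns c (cns a (cns i (cns β z)))) : ℕ → Ordinal.{u}) 4 →
          (TR S (pr m g) (fun n => (cns d (cns c (cns a (cns i (cns β z)))) :
          ℕ → Ordinal.{u}) (if n = 0 then 2 else if n = 1 then 1 else
          if n = 2 then 0 else n)) → MemU l.ord U (TR S (pr m g)) (fun n => (fun n =>
          (cns d (cns c (cns a (cns i (cns β z)))) :
          ℕ → Ordinal.{u}) (if n = 0 then 2 else if n = 1 then 1 else
          if n = 2 then 0 else n)) (n + 1)))}) = fun c => {a | ∀ d < β,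
          TR S (pr m g) (cns a (cns c (cns d (cns i (cns β z))))) → Ex c d i} := by
        funext c
        ext a
        refine forall_congr' fun d => ?_
        rw [e' d c a, e d c a, E_iff]
        exact Iff.rfl
      rw [← e3]
      exact this
    · intro c hc
      refine hU.comp β hβ (fun d => {a |
        TR S (pr m g) (cns a (cns c (cns d (cns i (cns β z))))) → Ex c d i}) ?_ ?_
      · have := (hQ.ren fun n => if n = 0 then 1 else if n = 1 then 2 else
          if n = 2 then 0 else n).hod_sq l.ord β (cns c (cns i (cns β z)))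
        have e : ∀ d a : Ordinal.{u}, (fun n => (cns d (cns a (cns c (cns i (cns β z)))) :
            ℕ → Ordinal.{u}) (if n = 0 then 1 else if n = 1 then 2 else
            if n = 2 then 0 else n)) = cns a (cns c (cns d (cns i (cns β z)))) := by
          intro d a
          funext n
          rcases n with _ | _ | _ | n <;> rfl
        have e' : ∀ d a : Ordinal.{u}, (fun n => (fun n => (cns d (cns a (cns c (cns i (cns β z)))) :
            ℕ → Ordinal.{u}) (if n = 0 then 1 else if n = 1 then 2 else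
            if n = 2 then 0 else n)) (n + 1)) = cns c (cns d (cns i (cns β z))) := by
          intro d a
          rw [e]
          rfl
        have e3 : (fun d : Ordinal.{u} => {a : Ordinal.{u} |
            (TR S (pr m g) (fun n => (cns d (cns a (cns c (cns i (cns β z)))) :
            ℕ → Ordinal.{u}) (if n = 0 then 1 else if n = 1 then 2 else
            if n = 2 then 0 else n)) → MemU l.ord U (TR S (pr m g)) (fun n => (fun n =>
            (cns d (cns a (cns c (cns i (cns β z)))) :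
            ℕ → Ordinal.{u}) (if n = 0 then 1 else if n = 1 then 2 else
            if n = 2 then 0 else n)) (n + 1)))}) = fun d => {a |
            TR S (pr m g) (cns a (cns c (cns d (cns i (cns β z))))) → Ex c d i} := by
          funext d
          ext a
          show (_ → _) ↔ (_ → _)
          rw [e' d a, e d a, E_iff]
        rw [← e3]
        exact this
      · intro d hd
        by_cases hcd : Ex c d i
        · have e : toZ l.ord {a | TR S (pr m g) (cns a (cns c (cns d (cns i (cns β z))))) → Ex c d i} =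
              l.ord.toZFSet := by
            ext x
            rw [mem_toZ, mem_toZFSet_iff]
            constructor
            · rintro ⟨a, ha, _, rfl⟩
              exact ⟨a, ha, rfl⟩
            · rintro ⟨a, ha, rfl⟩
              exact ⟨a, ha, fun _ => hcd, rfl⟩
          rw [e]
          exact top_mem h0l hU
        · have e : {a | TR S (pr m g) (cns a (cns c (cns d (cns i (cns β z))))) → Ex c d i} =
              {a | TR S (pr m g) (cns a (cns c (cns d (cns i (cns β z)))))}ᶜ := by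
            ext a
            exact ⟨fun h h' => hcd (h h'), fun h h' => absurd h' h⟩
          rw [e]
          refine compl_mem hU ?_ ?_
          · rw [T_set]
            exact T_hod c d i
          · rw [T_set]
            rwa [hEx] at hcd
  -- Step B
  have stepB : ∀ i, ∃ d < l.ord, toZ l.ord {c | Ex c d i} ∈ U := by
    intro i
    by_contra hn
    push Not at hn
    obtain ⟨β, hβ, hβ'⟩ := stepA i
    have h1 := hU.comp β hβ (fun d => {c | ¬ Ex c d i}) ?_ ?_
    · have e : toZ l.ord {a | ∀ d < β, a ∈ {c | ¬ Ex c d i}} = ∅ := by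
        rw [ZFSet.eq_empty]
        intro x hx
        obtain ⟨a, ha, h, rfl⟩ := mem_toZ.1 hx
        obtain ⟨d, hd, hd'⟩ := hβ' a ha
        exact h d hd hd'
      rw [e] at h1
      exact empty_notMem h0l hU h1
    · have := (hE.ren fun n => if n = 0 then 1 else if n = 1 then 0 else n).not.hod_sq l.ord β
        (cns i z)
      have e : ∀ d c : Ordinal.{u}, (fun n => (cns d (cns c (cns i z)) : ℕ → Ordinal.{u})
          (if n = 0 then 1 else if n = 1 then 0 else n)) = cns c (cns d (cns i z)) := by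
        intro d c
        funext n
        rcases n with _ | _ | n <;> rfl
      simpa only [e, E_iff] using this
    · intro d hd
      refine compl_mem hU (A := {c | Ex c d i}) ?_ (hn d (hd.trans hβ))
      have := hE.hod_Z l.ord (cns d (cns i z))
      simpa only [E_iff] using this
  -- Step C
  have stepC : toZ l.ord {b | ∀ i < g, b ∈ {b | toZ l.ord {c | Ex c b i} ∈ U}} ∈ U := by
    refine hU.comp g hg _ ?_ ?_
    · have := (hEE.ren fun n => if n = 0 then 1 else if n = 1 then 0 else n).hod_sq l.ord g z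
      have e : ∀ i b : Ordinal.{u}, (fun n => (cns i (cns b z) : ℕ → Ordinal.{u})
          (if n = 0 then 1 else if n = 1 then 0 else n)) = cns b (cns i z) := by
        intro d c
        funext n
        rcases n with _ | _ | n <;> rfl
      simpa only [e, EE_iff] using this
    · intro i _
      obtain ⟨d, hd, hd'⟩ := stepB i
      have e : toZ l.ord {b | toZ l.ord {c | Ex c b i} ∈ U} = toZ l.ord {c | Ex c d i} := by
        refine toZ_congr fun b _ => ?_
        constructor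
        · intro hb
          obtain ⟨c, _, h1, h2⟩ := meet h2l hU hb hd'
          exact trans _ _ _ _ (symm _ _ _ h1) h2
        · intro hb
          have e2 : {c | Ex c b i} = {c | Ex c d i} := by
            ext c
            exact ⟨fun h => trans _ _ _ _ h hb, fun h => trans _ _ _ _ h (symm _ _ _ hb)⟩
          show toZ l.ord {c | Ex c b i} ∈ U
          rw [e2]
          exact hd'
      rw [e]
      exact hd'
  -- Step D
  obtain ⟨b, _, hb⟩ := unbounded hl hU stepC 0 h0l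
  obtain ⟨b', hbl, hb2, hb3⟩ := mem_toZ.1 hb
  rw [toZFSet_injective hb3] at hbl hb2
  obtain ⟨c, hbc, hc⟩ := unbounded hl hU stepC (Order.succ b) (hlim.succ_lt hbl)
  obtain ⟨c', hcl, hc2, hc3⟩ := mem_toZ.1 hc
  rw [toZFSet_injective hc3] at hcl hc2
  have hbc' : b < c := (Order.lt_succ b).trans_le hbc
  have hEbc : ∀ i < g, Ex b c i := by
    intro i hi
    obtain ⟨d, _, h1, h2⟩ := meet h2l hU (hb2 i hi) (hc2 i hi)
    exact trans _ _ _ _ (symm _ _ _ h1) h2
  have hI := hU.comp g hg (fun i => {a | TR S (pr m g) (cns a (cns b (cns c (cns i z))))}) ?_ ?_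
  · obtain ⟨a, hca, ha⟩ := unbounded hl hU hI (Order.succ c) (hlim.succ_lt hcl)
    obtain ⟨a', hal, ha2, ha3⟩ := mem_toZ.1 ha
    rw [toZFSet_injective ha3] at hal ha2
    have hca' : c < a := (Order.lt_succ c).trans_le hca
    obtain ⟨-, -, f, hf, hsep⟩ := hF a hal
    have heq := hsep b.toZFSet (toZFSet_mem_toZFSet_iff.2 (hbc'.trans hca')) c.toZFSet
      (toZFSet_mem_toZFSet_iff.2 hca') (by
        intro i hi
        obtain ⟨j, hj, rfl⟩ := mem_toZFSet_iff.1 hi
        exact (T_iff a hal b c j z).1 (ha2 j hj) f hf)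
    exact hbc'.ne (toZFSet_injective heq)
  · have := (hT.ren fun n => if n = 0 then 1 else if n = 1 then 2 else if n = 2 then 3 else
      if n = 3 then 0 else n).hod_sq l.ord g (cns b (cns c z))
    have e : ∀ i a : Ordinal.{u}, (fun n => (cns i (cns a (cns b (cns c z))) : ℕ → Ordinal.{u})
        (if n = 0 then 1 else if n = 1 then 2 else if n = 2 then 3 else
        if n = 3 then 0 else n)) = cns a (cns b (cns c (cns i z))) := by
      intro i a
      funext n
      rcases n with _ | _ | _ | _ | n <;> rfl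
    simpa only [e] using this
  · intro i hi
    have h1 := (hEx b c i).1 (hEbc i hi)
    rwa [← T_set b c i z] at h1

end Loc

end Pool.Agent.NH86.HM
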