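import Pool.Agent.NH86.HM.Loc

/-!
# Small families depending on the ordinal: parameters, and the statements (A) and (B) (helper86)
-/

set_option autoImplicit false

open Ordinal Cardinal Set

universe u

namespace Pool.Agent.NH86.HM

open Pool.Agent.NH86.HD

theorem succ_pow_mul_lt {a b c : Cardinal.{u}} (hc : ℵ₀ < c)
    (ha : Order.succ (2 ^ a) < c) (hb : Order.succ (2 ^ b) < c) : Order.succ (2 ^ (a * b)) < c := by
  by_cases h : a < ℵ₀ ∧ b < ℵ₀
  · have h1 : (2 : Cardinal.{u}) ^ (a * b) < ℵ₀ := Cardinal.power_lt_aleph0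
      (Cardinal.natCast_lt_aleph0) (Cardinal.mul_lt_aleph0 h.1 h.2)
    exact lt_of_le_of_lt (Order.succ_le_of_lt h1) hc
  · have h1 : a * b ≤ max a b := by
      rcases not_and_or.1 h with h | h
      · exact Cardinal.mul_le_max_of_aleph0_le_left (not_lt.1 h)
      · exact Cardinal.mul_le_max_of_aleph0_le_right (not_lt.1 h)
    refine lt_of_le_of_lt (Order.succ_le_succ (Cardinal.power_le_power_left two_ne_zero h1)) ?_
    rcases le_total a b with h | h
    · rw [max_eq_right h]; exact hb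
    · rw [max_eq_left h]; exact ha

theorem main_loc {l : Cardinal.{u}} (hl : l.IsRegular) (h0 : ℵ₀ < l) (h : LocSmall l) :
    ¬ MeasH l.ord := by
  obtain ⟨m, t, g, hm, ht, hg, h⟩ := h
  refine Loc.core hl h0 (succ_pow_mul_lt h0 ht hm) hg fun a ha => ?_
  obtain ⟨x, hx, X, hX, hXm, f, hf, hs⟩ := h a ha
  obtain ⟨X', h1, h2, h3⟩ := exists_fam hx hX
  exact ⟨X', h1, h3.trans (mul_le_mul_right hXm _), f, h2 hf, hs⟩

theorem locSmall_of_succH {g : Cardinal.{u}} (hg : ℵ₀ ≤ g) (h : SuccH g) : LocSmall (Order.succ g) := by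
  have h2 : Order.succ ((2 : Cardinal.{u}) ^ (1 : Cardinal.{u})) < Order.succ g := by
    rw [power_one]
    refine lt_of_lt_of_le ?_ (hg.trans (Order.le_succ g))
    have : Order.succ (2 : Cardinal.{u}) ≤ 3 := by
      refine Order.succ_le_of_lt ?_
      exact_mod_cast (Nat.lt_succ_self 2)
    exact lt_of_le_of_lt this (by exact_mod_cast Cardinal.natCast_lt_aleph0 (n := 3))
  refine ⟨1, 1, g.ord, h2, ?_, ord_lt_ord.2 (Order.lt_succ g), fun a ha => ?_⟩
  · rw [Pool.Agent.NH49.EX.card_V_one]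
    exact h2
  · obtain ⟨f, hf, h3, h4⟩ := h a ha
    refine ⟨∅, Pool.Agent.NH49.EX.empty_mem, {f},
      Pool.Agent.NH49.EX.ODp_of_OD (OD.singleton (hod_od hf)) ∅, ?_, f, ZFSet.mem_singleton.2 rfl, ?_⟩
    · rw [ZFSet.card_singleton]
    · intro x hx y _ hxy
      obtain ⟨i, hi, rfl⟩ := mem_toZFSet_iff.1 hx
      obtain ⟨j, hj, hj'⟩ := h3 i hi
      exact h4 _ _ _ hj' ((hxy j.toZFSet (toZFSet_mem_toZFSet_iff.2 hj)).1 hj')

theorem locAbove_of_hypA {d : Cardinal.{u}} (h : HypA d) : LocAbove d := by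
  obtain ⟨g, hg, hs⟩ := Pool.Agent.NH49.EX.exists_sing d
  have hω : ℵ₀ ≤ g := by
    have := hs.2.1
    rwa [card_ord] at this
  exact ⟨Order.succ g, hg.trans (Order.lt_succ g), isRegular_succ hω, locSmall_of_succH hω (h g hg hs).2⟩

theorem not_hypB {d : Cardinal.{u}} (hd : ℵ₀ ≤ d) (h : LocAbove d) : ¬ HypB d := by
  obtain ⟨l, hdl, hl, h⟩ := h
  exact fun hB => main_loc hl (hd.trans_lt hdl) h (hB l hdl hl)

end Pool.Agent.NH86.HM
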