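import Pool.Agent.NH86.HD.HP

/-!
# Measurable cardinals in HOD and small ordinal definable families (helper86, MP_e37c09_lc)

The universe of sets is `ZFSet.{u}`, the definitions of `OD`, `HOD`, `toZ`, `sq` are in
`Pool/Agent/NH86/HD/Stm.lean`.
-/

set_option autoImplicit false

open Ordinal Cardinal Set

universe u

namespace Pool.Agent.NH86.HM

open Pool.Agent.NH86.HD

/-- `U` is, in the sense of HOD, an `l`-complete nonprincipal ultrafilter on `l` -/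
structure MeasU (l : Ordinal.{u}) (U : ZFSet.{u}) : Prop where
  hod : HOD U
  sub : ∀ A ∈ U, A ⊆ l.toZFSet
  ult : ∀ A, HOD A → A ⊆ l.toZFSet → (A ∈ U ↔ l.toZFSet \ A ∉ U)
  comp : ∀ k < l, ∀ S : Ordinal.{u} → Set Ordinal.{u}, HOD (sq l k S) → (∀ i < k, toZ l (S i) ∈ U) →
    toZ l {a | ∀ i < k, a ∈ S i} ∈ U
  free : ∀ a < l, ({a.toZFSet} : ZFSet.{u}) ∉ U

/-- `l` is measurable in HOD -/
def MeasH (l : Ordinal.{u}) : Prop := ∃ U : ZFSet.{u}, MeasU l U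

/-! ### Definability -/

theorem dfSat (φ : Fm) (g : ℕ → ℕ) : Df.{u} fun s => Sat φ (cns (s 0) fun n => s (g n + 1)) := by
  have h : Df.{u} fun s => Sat φ fun n => s (if n = 0 then 0 else g (n - 1) + 1) :=
    Df.ren (P := Sat φ) ⟨φ, fun _ => Iff.rfl⟩ fun n => if n = 0 then 0 else g (n - 1) + 1
  refine h.congr fun s => ?_
  have : (fun n => s (if n = 0 then 0 else g (n - 1) + 1)) = cns (s 0) fun n => s (g n + 1) := by
    funext n
    cases n <;> rfl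
  rw [this]

theorem dfCls (x b a i : ℕ) : Df.{u} fun s =>
    ∀ F, F ∈ s x → (ZFSet.pair (s b) (s i) ∈ F ↔ ZFSet.pair (s a) (s i) ∈ F) :=
  Df.all (R := fun F s => F ∈ s x → (ZFSet.pair (s b) (s i) ∈ F ↔ ZFSet.pair (s a) (s i) ∈ F))
    ((Df.mem 0 (x + 1)).imp ((Df.pairMem (b + 1) (i + 1) 0).iff (Df.pairMem (a + 1) (i + 1) 0)))

/-- the ordinals `b` such that all members of `X` agree at `(b, i)` and `(a, i)` -/
def Cl (X : ZFSet.{u}) (i a : Ordinal.{u}) : Set Ordinal.{u} :=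
  {b | ∀ F, F ∈ X → (ZFSet.pair b.toZFSet i.toZFSet ∈ F ↔ ZFSet.pair a.toZFSet i.toZFSet ∈ F)}

/-- the relation `b ∈ Cl X i a` with the parameters `a, b, i` and those of `X` -/
def P1 (φ : Fm) (s : ℕ → ZFSet.{u}) : Prop := ∃ X, Sat φ (cns X fun n => s (n + 3)) ∧
  ∀ F, F ∈ X → (ZFSet.pair (s 1) (s 2) ∈ F ↔ ZFSet.pair (s 0) (s 2) ∈ F)

theorem dfP1 (φ : Fm) : Df.{u} (P1 φ) :=
  Df.ex (R := fun X s => Sat φ (cns X fun n => s (n + 3)) ∧
    ∀ F, F ∈ X → (ZFSet.pair (s 1) (s 2) ∈ F ↔ ZFSet.pair (s 0) (s 2) ∈ F))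
    ((dfSat φ fun n => n + 3).and (dfCls 0 2 1 3))

theorem P1_iff {φ : Fm} {p : ℕ → Ordinal.{u}} {X : ZFSet.{u}}
    (hφ : ∀ y, Sat φ (cns y (oz p)) ↔ y = X) (d b i : Ordinal.{u}) :
    b ∈ Cl X i d ↔ P1 φ (oz (cns d (cns b (cns i p)))) := by
  constructor
  · intro h
    exact ⟨X, (hφ X).2 rfl, h⟩
  · rintro ⟨Y, hY, h⟩
    have e : Y = X := (hφ Y).1 hY
    subst e
    exact h

theorem hodCl {X : ZFSet.{u}} (hX : OD X) (l i d : Ordinal.{u}) : HOD (toZ l (Cl X i d)) := by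
  obtain ⟨φ, p, hφ⟩ := hX
  exact HPJob.hod_Z (dfP1 φ) (k := Order.succ d) (p := cns i p)
    (fun j _ a _ => P1_iff hφ j a i) (Order.lt_succ d)

theorem hodClc {X : ZFSet.{u}} (hX : OD X) (l i k : Ordinal.{u}) :
    HOD (sq l k fun d => (Cl X i d)ᶜ) := by
  obtain ⟨φ, p, hφ⟩ := hX
  exact HPJob.hod_sq (dfP1 φ).not (p := cns i p) fun j _ a _ => not_congr (P1_iff hφ j a i)

/-- two sequences of parameters in one -/
def mx (p q : ℕ → Ordinal.{u}) (n : ℕ) : Ordinal.{u} := if n % 2 = 0 then p (n / 2) else q (n / 2)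

theorem mx_even (p q : ℕ → Ordinal.{u}) (n : ℕ) : mx p q (2 * n) = p n := by
  have h1 : 2 * n % 2 = 0 := by omega
  have h2 : 2 * n / 2 = n := by omega
  rw [mx, if_pos h1, h2]

theorem mx_odd (p q : ℕ → Ordinal.{u}) (n : ℕ) : mx p q (2 * n + 1) = q n := by
  have h1 : ¬ (2 * n + 1) % 2 = 0 := by omega
  have h2 : (2 * n + 1) / 2 = n := by omega
  rw [mx, if_neg h1, h2]

theorem oz_even (p q : ℕ → Ordinal.{u}) : (fun n => oz (mx p q) (2 * n)) = oz p := by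
  funext n
  show (mx p q (2 * n)).toZFSet = (p n).toZFSet
  rw [mx_even]

theorem oz_odd (p q : ℕ → Ordinal.{u}) : (fun n => oz (mx p q) (2 * n + 1)) = oz q := by
  funext n
  show (mx p q (2 * n + 1)).toZFSet = (q n).toZFSet
  rw [mx_odd]

/-- the relation `toZ l (Cl X i a) ∈ U` with the parameters `i, a, l` and those of `X` and `U` -/
def P2 (φ ψ : Fm) (s : ℕ → ZFSet.{u}) : Prop := ∃ X, Sat φ (cns X fun n => s (2 * n + 3)) ∧
  ∃ U, Sat ψ (cns U fun n => s (2 * n + 1 + 3)) ∧ ∃ w, w ∈ U ∧ ∀ b, b ∈ w ↔ (b ∈ s 2 ∧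
    ∀ F, F ∈ X → (ZFSet.pair b (s 0) ∈ F ↔ ZFSet.pair (s 1) (s 0) ∈ F))

theorem dfP2 (φ ψ : Fm) : Df.{u} (P2 φ ψ) := by
  refine Df.ex (R := fun X s => Sat φ (cns X fun n => s (2 * n + 3)) ∧
    ∃ U, Sat ψ (cns U fun n => s (2 * n + 1 + 3)) ∧ ∃ w, w ∈ U ∧ ∀ b, b ∈ w ↔ (b ∈ s 2 ∧
    ∀ F, F ∈ X → (ZFSet.pair b (s 0) ∈ F ↔ ZFSet.pair (s 1) (s 0) ∈ F)))
    ((dfSat φ fun n => 2 * n + 3).and ?_)
  refine Df.ex (R := fun U s => Sat ψ (cns U fun n => s (2 * n + 1 + 3 + 1)) ∧ ∃ w, w ∈ U ∧ ∀ b, b ∈ w ↔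
    (b ∈ s 3 ∧ ∀ F, F ∈ s 0 → (ZFSet.pair b (s 1) ∈ F ↔ ZFSet.pair (s 2) (s 1) ∈ F)))
    ((dfSat ψ fun n => 2 * n + 1 + 3 + 1).and ?_)
  refine Df.ex (R := fun w s => w ∈ s 0 ∧ ∀ b, b ∈ w ↔
    (b ∈ s 4 ∧ ∀ F, F ∈ s 1 → (ZFSet.pair b (s 2) ∈ F ↔ ZFSet.pair (s 3) (s 2) ∈ F)))
    ((Df.mem 0 1).and ?_)
  exact Df.all (R := fun b s => b ∈ s 0 ↔
    (b ∈ s 5 ∧ ∀ F, F ∈ s 2 → (ZFSet.pair b (s 3) ∈ F ↔ ZFSet.pair (s 4) (s 3) ∈ F)))
    ((Df.mem 0 1).iff ((Df.mem 0 6).and (dfCls 3 0 5 4)))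

theorem P2_iff {φ ψ : Fm} {p q : ℕ → Ordinal.{u}} {X U : ZFSet.{u}}
    (hφ : ∀ y, Sat φ (cns y (oz p)) ↔ y = X) (hψ : ∀ y, Sat ψ (cns y (oz q)) ↔ y = U)
    (i a l : Ordinal.{u}) :
    toZ l (Cl X i a) ∈ U ↔ P2 φ ψ (oz (cns i (cns a (cns l (mx p q))))) := by
  have e1 : (fun n => oz (cns i (cns a (cns l (mx p q)))) (2 * n + 3)) = oz p := oz_even p q
  have e2 : (fun n => oz (cns i (cns a (cns l (mx p q)))) (2 * n + 1 + 3)) = oz q := oz_odd p q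
  have e3 : ∀ w : ZFSet.{u}, (∀ b, b ∈ w ↔ (b ∈ l.toZFSet ∧
      ∀ F, F ∈ X → (ZFSet.pair b i.toZFSet ∈ F ↔ ZFSet.pair a.toZFSet i.toZFSet ∈ F))) ↔
      w = toZ l (Cl X i a) := by
    intro w
    have e4 : ∀ b : ZFSet.{u}, (b ∈ l.toZFSet ∧
        ∀ F, F ∈ X → (ZFSet.pair b i.toZFSet ∈ F ↔ ZFSet.pair a.toZFSet i.toZFSet ∈ F)) ↔
        b ∈ toZ l (Cl X i a) := by
      intro b
      rw [mem_toZ, mem_toZFSet_iff]
      constructor
      · rintro ⟨⟨c, hc, rfl⟩, h⟩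
        exact ⟨c, hc, h, rfl⟩
      · rintro ⟨c, hc, h, rfl⟩
        exact ⟨⟨c, hc, rfl⟩, h⟩
    rw [ZFSet.ext_iff]
    exact forall_congr' fun b => iff_congr Iff.rfl (e4 b)
  constructor
  · intro h
    refine ⟨X, ?_, U, ?_, toZ l (Cl X i a), h, (e3 _).2 rfl⟩
    · rw [e1]; exact (hφ X).2 rfl
    · rw [e2]; exact (hψ U).2 rfl
  · rintro ⟨X', h1, U', h2, w, h3, h4⟩
    rw [e1] at h1
    rw [e2] at h2
    have e5 : X' = X := (hφ X').1 h1
    have e6 : U' = U := (hψ U').1 h2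
    subst e5 e6
    rw [← (e3 w).1 h4]
    exact h3

theorem hodZ {X U : ZFSet.{u}} (hX : OD X) (hU : OD U) (l k : Ordinal.{u}) :
    HOD (sq l k fun i => {a | toZ l (Cl X i a) ∈ U}) := by
  obtain ⟨φ, p, hφ⟩ := hX
  obtain ⟨ψ, q, hψ⟩ := hU
  exact HPJob.hod_sq (dfP2 φ ψ) (p := cns l (mx p q)) fun i _ a _ => P2_iff hφ hψ i a l

/-- a sequence of two sets -/
def P3 (φ ψ : Fm) (s : ℕ → ZFSet.{u}) : Prop :=
  ((∀ z, z ∉ s 0) ∧ ∃ A, Sat φ (cns A fun n => s (2 * n + 2)) ∧ s 1 ∈ A) ∨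
  ((¬ ∀ z, z ∉ s 0) ∧ ∃ A, Sat ψ (cns A fun n => s (2 * n + 1 + 2)) ∧ s 1 ∈ A)

theorem dfP3 (φ ψ : Fm) : Df.{u} (P3 φ ψ) := by
  have h0 : Df.{u} fun s => ∀ z, z ∉ s 0 :=
    Df.all (R := fun z s => z ∉ s 0) (Df.mem 0 1).not
  exact (h0.and (Df.ex (R := fun A s => Sat φ (cns A fun n => s (2 * n + 2)) ∧ s 1 ∈ A)
    ((dfSat φ fun n => 2 * n + 2).and (Df.mem 2 0)))).or
    (h0.not.and (Df.ex (R := fun A s => Sat ψ (cns A fun n => s (2 * n + 1 + 2)) ∧ s 1 ∈ A)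
    ((dfSat ψ fun n => 2 * n + 1 + 2).and (Df.mem 2 0))))

theorem hod2 {A B : ZFSet.{u}} (hA : OD A) (hB : OD B) (l k : Ordinal.{u}) :
    HOD (sq l k fun j => {a | (j = 0 ∧ a ∈ ords A) ∨ (j ≠ 0 ∧ a ∈ ords B)}) := by
  obtain ⟨φ, p, hφ⟩ := hA
  obtain ⟨ψ, q, hψ⟩ := hB
  refine HPJob.hod_sq (dfP3 φ ψ) (p := mx p q) fun j _ a _ => ?_
  have e1 : (fun n => oz (cns j (cns a (mx p q))) (2 * n + 2)) = oz p := oz_even p q
  have e2 : (fun n => oz (cns j (cns a (mx p q))) (2 * n + 1 + 2)) = oz q := oz_odd p q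
  have e0 : (∀ z, z ∉ j.toZFSet) ↔ j = 0 := by
    constructor
    · intro h
      by_contra hj
      exact h _ (toZFSet_mem_toZFSet_iff.2 (pos_iff_ne_zero.2 hj))
    · rintro rfl z hz
      obtain ⟨b, hb, -⟩ := mem_toZFSet_iff.1 hz
      exact not_lt_zero hb
  have k1 : (∃ C, Sat φ (cns C fun n => oz (cns j (cns a (mx p q))) (2 * n + 2)) ∧ a.toZFSet ∈ C) ↔
      a ∈ ords A := by
    rw [e1]
    constructor
    · rintro ⟨C, h1, h2⟩
      rw [(hφ C).1 h1] at h2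
      exact h2
    · intro h
      exact ⟨A, (hφ A).2 rfl, h⟩
  have k2 : (∃ C, Sat ψ (cns C fun n => oz (cns j (cns a (mx p q))) (2 * n + 1 + 2)) ∧ a.toZFSet ∈ C) ↔
      a ∈ ords B := by
    rw [e2]
    constructor
    · rintro ⟨C, h1, h2⟩
      rw [(hψ C).1 h1] at h2
      exact h2
    · intro h
      exact ⟨B, (hψ B).2 rfl, h⟩
  have : P3 φ ψ (oz (cns j (cns a (mx p q)))) ↔ ((j = 0 ∧ a ∈ ords A) ∨ (j ≠ 0 ∧ a ∈ ords B)) := by
    unfold P3
    exact or_congr (and_congr e0 k1) (and_congr (not_congr e0) k2)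
  exact this.symm

/-! ### The ultrafilter -/

theorem hod_od {x : ZFSet.{u}} (h : HOD x) : OD x := by
  cases h with
  | mk _ h _ => exact h

theorem hod_el {x y : ZFSet.{u}} (h : HOD x) (hy : y ∈ x) : HOD y := by
  cases h with
  | mk _ _ h => exact h y hy

theorem toZ_ords {l : Ordinal.{u}} {A : ZFSet.{u}} (h : A ⊆ l.toZFSet) : toZ l (ords A) = A := by
  ext x
  rw [mem_toZ]
  constructor
  · rintro ⟨a, _, h, rfl⟩
    exact h
  · intro hx
    obtain ⟨a, ha, rfl⟩ := mem_toZFSet_iff.1 (h hx)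
    exact ⟨a, ha, hx, rfl⟩

section

variable {l : Ordinal.{u}} {U : ZFSet.{u}}

theorem top_mem (hl : 0 < l) (h : MeasU l U) : l.toZFSet ∈ U := by
  have h1 : HOD (sq l 0 fun _ => ∅) :=
    HPJob.hod_sq (P := fun _ => False) ((Df.true.{u}.not).congr fun _ => not_true) (p := fun _ => 0)
      fun i hi => absurd hi not_lt_zero
  have h2 := h.comp 0 hl (fun _ => ∅) h1 fun i hi => absurd hi not_lt_zero
  have e : toZ l {a | ∀ i < (0 : Ordinal.{u}), a ∈ (∅ : Set Ordinal.{u})} = l.toZFSet := by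
    ext x
    rw [mem_toZ, mem_toZFSet_iff]
    constructor
    · rintro ⟨a, ha, _, rfl⟩
      exact ⟨a, ha, rfl⟩
    · rintro ⟨a, ha, rfl⟩
      exact ⟨a, ha, fun i hi => absurd hi not_lt_zero, rfl⟩
  rwa [e] at h2

theorem empty_notMem (hl : 0 < l) (h : MeasU l U) : (∅ : ZFSet.{u}) ∉ U := by
  have h1 := (h.ult _ (HPJob.hod_ord l) (fun _ hx => hx)).1 (top_mem hl h)
  have e : l.toZFSet \ l.toZFSet = (∅ : ZFSet.{u}) := by
    ext x
    simp
  rwa [e] at h1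

theorem inter_mem (hl : 2 < l) (h : MeasU l U) {A B : ZFSet.{u}} (hA : A ∈ U) (hB : B ∈ U) :
    A ∩ B ∈ U := by
  have h1 := h.comp 2 hl (fun j => {a | (j = 0 ∧ a ∈ ords A) ∨ (j ≠ 0 ∧ a ∈ ords B)})
    (hod2 (hod_od (hod_el h.hod hA)) (hod_od (hod_el h.hod hB)) l 2) ?_
  · have e : toZ l {a | ∀ i < (2 : Ordinal.{u}), a ∈ {a | (i = 0 ∧ a ∈ ords A) ∨ (i ≠ 0 ∧ a ∈ ords B)}} =
        A ∩ B := by
      ext x
      rw [mem_toZ, ZFSet.mem_inter]
      constructor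
      · rintro ⟨a, ha, h2, rfl⟩
        have h3 := h2 0 two_pos
        have h4 := h2 1 one_lt_two
        refine ⟨?_, ?_⟩
        · rcases h3 with h3 | h3
          · exact h3.2
          · exact absurd rfl h3.1
        · rcases h4 with h4 | h4
          · exact absurd h4.1 one_ne_zero
          · exact h4.2
      · rintro ⟨h2, h3⟩
        obtain ⟨a, ha, rfl⟩ := mem_toZFSet_iff.1 (h.sub A hA h2)
        refine ⟨a, ha, fun i _ => ?_, rfl⟩
        by_cases hi : i = 0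
        · exact Or.inl ⟨hi, h2⟩
        · exact Or.inr ⟨hi, h3⟩
    rwa [e] at h1
  · intro i _
    by_cases hi : i = 0
    · have e : toZ l {a | (i = 0 ∧ a ∈ ords A) ∨ (i ≠ 0 ∧ a ∈ ords B)} = toZ l (ords A) := by
        congr 1
        ext a
        simp [hi]
      show toZ l {a | (i = 0 ∧ a ∈ ords A) ∨ (i ≠ 0 ∧ a ∈ ords B)} ∈ U
      rw [e, toZ_ords (h.sub A hA)]
      exact hA
    · have e : toZ l {a | (i = 0 ∧ a ∈ ords A) ∨ (i ≠ 0 ∧ a ∈ ords B)} = toZ l (ords B) := by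
        congr 1
        ext a
        simp [hi]
      show toZ l {a | (i = 0 ∧ a ∈ ords A) ∨ (i ≠ 0 ∧ a ∈ ords B)} ∈ U
      rw [e, toZ_ords (h.sub B hB)]
      exact hB

theorem up_mem (hl : 2 < l) (h : MeasU l U) {A B : ZFSet.{u}} (hA : A ∈ U) (hAB : A ⊆ B)
    (hB : B ⊆ l.toZFSet) (hB' : HOD B) : B ∈ U := by
  by_contra hn
  have h1 : l.toZFSet \ B ∈ U := by
    by_contra hc
    exact hn ((h.ult B hB' hB).2 hc)
  have h2 := inter_mem hl h hA h1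
  have e : A ∩ (l.toZFSet \ B) = (∅ : ZFSet.{u}) := by
    ext x
    simp only [ZFSet.mem_inter, ZFSet.mem_sdiff, ZFSet.notMem_empty, iff_false]
    rintro ⟨h3, _, h4⟩
    exact h4 (hAB h3)
  rw [e] at h2
  exact empty_notMem ((two_pos).trans hl) h h2

end

/-! ### The main theorem -/

theorem Cl_self (X : ZFSet.{u}) (i a : Ordinal.{u}) : a ∈ Cl X i a := fun _ _ => Iff.rfl

theorem Cl_symm {X : ZFSet.{u}} {i a b : Ordinal.{u}} (h : a ∈ Cl X i b) : b ∈ Cl X i a :=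
  fun F hF => (h F hF).symm

theorem Cl_trans {X : ZFSet.{u}} {i a b c : Ordinal.{u}} (h : a ∈ Cl X i b) (h' : b ∈ Cl X i c) :
    a ∈ Cl X i c := fun F hF => (h F hF).trans (h' F hF)

/-- the classes have representatives below a bound -/
theorem exists_bound {l : Cardinal.{u}} (hl : l.IsRegular) {X : ZFSet.{u}} (hX : 2 ^ X.card < l)
    (i : Ordinal.{u}) : ∃ b < l.ord, ∀ a < l.ord, ∃ d < b, a ∈ Cl X i d := by
  classical
  let J : Type u := Shrink.{u} X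
  let ty : Ordinal.{u} → Set J := fun a =>
    {j | ZFSet.pair a.toZFSet i.toZFSet ∈ ((equivShrink X).symm j : ZFSet.{u})}
  have hty : ∀ a b, ty a = ty b → a ∈ Cl X i b := by
    intro a b h F hF
    have h1 : (equivShrink X ⟨F, hF⟩ ∈ ty a) ↔ (equivShrink X ⟨F, hF⟩ ∈ ty b) := by rw [h]
    have h2 : ∀ c, (equivShrink X ⟨F, hF⟩ ∈ ty c) ↔ ZFSet.pair c.toZFSet i.toZFSet ∈ F := by
      intro c
      show ZFSet.pair c.toZFSet i.toZFSet ∈
        ((equivShrink X).symm (equivShrink X ⟨F, hF⟩) : ZFSet.{u}) ↔ _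
      rw [Equiv.symm_apply_apply]
    rw [h2, h2] at h1
    exact h1
  have hcard : #(Set J) < l := by
    rw [mk_set]
    exact hX
  let g : Set J → Ordinal.{u} := fun T => if h : ∃ a < l.ord, ty a = T then Order.succ (Classical.choose h) else 0
  have hlim : Order.IsSuccLimit l.ord := isSuccLimit_ord hl.aleph0_le
  have hpos : (0 : Ordinal.{u}) < l.ord := by
    rw [lt_ord, card_zero]
    exact hl.pos
  have hg : ∀ T, g T < l.ord := by
    intro T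
    by_cases h : ∃ a < l.ord, ty a = T
    · have : g T = Order.succ (Classical.choose h) := dif_pos h
      rw [this]
      exact hlim.succ_lt (Classical.choose_spec h).1
    · have : g T = 0 := dif_neg h
      rw [this]
      exact hpos
  refine ⟨⨆ T, g T, Ordinal.iSup_lt_of_lt_cof (by rwa [hl.cof_ord]) hg, fun a ha => ?_⟩
  have h : ∃ b < l.ord, ty b = ty a := ⟨a, ha, rfl⟩
  refine ⟨Classical.choose h, ?_, hty _ _ (Classical.choose_spec h).2.symm⟩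
  have h1 : g (ty a) = Order.succ (Classical.choose h) := dif_pos h
  refine lt_of_lt_of_le (Order.lt_succ _) ?_
  rw [← h1]
  exact Ordinal.le_iSup g (ty a)

theorem exists_class {l : Cardinal.{u}} (hl : l.IsRegular) {U : ZFSet.{u}} (hU : MeasU l.ord U)
    {X : ZFSet.{u}} (hX : OD X) (hc : 2 ^ X.card < l) (i : Ordinal.{u}) :
    ∃ d < l.ord, toZ l.ord (Cl X i d) ∈ U := by
  have hpos : (0 : Ordinal.{u}) < l.ord := by
    rw [lt_ord, card_zero]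
    exact hl.pos
  by_contra hn
  push Not at hn
  obtain ⟨b, hb, hb'⟩ := exists_bound hl hc i
  have h1 := hU.comp b hb _ (hodClc hX l.ord i b) ?_
  · have e : toZ l.ord {a | ∀ d < b, a ∈ (Cl X i d)ᶜ} = ∅ := by
      rw [ZFSet.eq_empty]
      intro x hx
      obtain ⟨a, ha, h, rfl⟩ := mem_toZ.1 hx
      obtain ⟨d, hd, hd'⟩ := hb' a ha
      exact h d hd hd'
    rw [e] at h1
    exact empty_notMem hpos hU h1
  · intro d hd
    have h2 := hn d (hd.trans hb)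
    have hs : toZ l.ord (Cl X i d) ⊆ l.ord.toZFSet := by
      intro x hx
      obtain ⟨a, ha, _, rfl⟩ := mem_toZ.1 hx
      exact mem_toZFSet_iff.2 ⟨a, ha, rfl⟩
    have h3 : l.ord.toZFSet \ toZ l.ord (Cl X i d) ∈ U := by
      by_contra hcon
      exact h2 ((hU.ult _ (hodCl hX _ i d) hs).2 hcon)
    have e : toZ l.ord ((Cl X i d)ᶜ) = l.ord.toZFSet \ toZ l.ord (Cl X i d) := by
      ext x
      rw [ZFSet.mem_sdiff, mem_toZ, mem_toZ, mem_toZFSet_iff]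
      constructor
      · rintro ⟨a, ha, h, rfl⟩
        refine ⟨⟨a, ha, rfl⟩, ?_⟩
        rintro ⟨c, _, hc2, hc3⟩
        rw [toZFSet_injective hc3] at hc2
        exact h hc2
      · rintro ⟨⟨a, ha, rfl⟩, h⟩
        exact ⟨a, ha, fun h' => h ⟨a, ha, h', rfl⟩, rfl⟩
    rw [e]
    exact h3

/-- all members of a small ordinal definable family are constant on one set of the ultrafilter -/
theorem const_on {l : Cardinal.{u}} (hl : l.IsRegular) {U : ZFSet.{u}} (hU : MeasU l.ord U)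
    {X : ZFSet.{u}} (hX : OD X) (hc : 2 ^ X.card < l) {g : Ordinal.{u}} (hg : g < l.ord) :
    ∃ Z ∈ U, ∀ F ∈ X, ∀ a b : Ordinal.{u}, a.toZFSet ∈ Z → b.toZFSet ∈ Z → ∀ i < g,
      (ZFSet.pair a.toZFSet i.toZFSet ∈ F ↔ ZFSet.pair b.toZFSet i.toZFSet ∈ F) := by
  have hω : Ordinal.omega0 ≤ l.ord := by
    rw [← ord_aleph0]
    exact ord_le_ord.2 hl.aleph0_le
  have h2l : (2 : Ordinal.{u}) < l.ord := lt_of_lt_of_le (natCast_lt_omega0 2) hω
  have h0l : (0 : Ordinal.{u}) < l.ord := two_pos.trans h2l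
  have hsub : ∀ S : Set Ordinal.{u}, toZ l.ord S ⊆ l.ord.toZFSet := by
    intro S x hx
    obtain ⟨a, ha, _, rfl⟩ := mem_toZ.1 hx
    exact mem_toZFSet_iff.2 ⟨a, ha, rfl⟩
  have hH := hodZ hX (hod_od hU.hod) l.ord g
  have hmeet : ∀ i a b, toZ l.ord (Cl X i a) ∈ U → toZ l.ord (Cl X i b) ∈ U → a ∈ Cl X i b := by
    intro i a b h1 h2
    have h3 := inter_mem h2l hU h1 h2
    by_contra hn
    have e : toZ l.ord (Cl X i a) ∩ toZ l.ord (Cl X i b) = (∅ : ZFSet.{u}) := by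
      rw [ZFSet.eq_empty]
      intro x hx
      rw [ZFSet.mem_inter, mem_toZ, mem_toZ] at hx
      obtain ⟨⟨c, _, hc1, rfl⟩, c', _, hc2, hc3⟩ := hx
      rw [toZFSet_injective hc3] at hc2
      exact hn (Cl_trans (Cl_symm hc1) hc2)
    rw [e] at h3
    exact empty_notMem h0l hU h3
  refine ⟨_, hU.comp g hg _ hH ?_, ?_⟩
  · intro i _
    obtain ⟨d, _, hd'⟩ := exists_class hl hU hX hc i
    have e : toZ l.ord {a | toZ l.ord (Cl X i a) ∈ U} = toZ l.ord (Cl X i d) := by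
      ext x
      rw [mem_toZ, mem_toZ]
      constructor
      · rintro ⟨a, ha, h, rfl⟩
        exact ⟨a, ha, hmeet i a d h hd', rfl⟩
      · rintro ⟨a, ha, h, rfl⟩
        refine ⟨a, ha, ?_, rfl⟩
        have e2 : Cl X i a = Cl X i d := by
          ext c
          exact ⟨fun hc => Cl_trans hc h, fun hc => Cl_trans hc (Cl_symm h)⟩
        show toZ l.ord (Cl X i a) ∈ U
        rw [e2]
        exact hd'
    rw [e]
    exact hd'
  · intro F hF a b ha hb i hi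
    obtain ⟨a', _, ha1, ha2⟩ := mem_toZ.1 ha
    obtain ⟨b', _, hb1, hb2⟩ := mem_toZ.1 hb
    rw [toZFSet_injective ha2] at ha1
    rw [toZFSet_injective hb2] at hb1
    exact hmeet i a b (ha1 i hi) (hb1 i hi) F hF

theorem hodNe (l k : Ordinal.{u}) : HOD (sq l k fun d => {a | a ≠ d}) :=
  HPJob.hod_sq (P := fun s => ¬ s 1 = s 0) (Df.eq 1 0).not (p := fun _ => 0) fun _ _ _ _ =>
    not_congr ⟨fun h => congrArg toZFSet h, fun h => toZFSet_injective h⟩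

/-- the members of the ultrafilter are unbounded -/
theorem unbounded {l : Cardinal.{u}} (hl : l.IsRegular) {U : ZFSet.{u}} (hU : MeasU l.ord U)
    {Z : ZFSet.{u}} (hZ : Z ∈ U) : ∀ b < l.ord, ∃ a, b ≤ a ∧ a.toZFSet ∈ Z := by
  intro b hb
  have hω : Ordinal.omega0 ≤ l.ord := by
    rw [← ord_aleph0]
    exact ord_le_ord.2 hl.aleph0_le
  have h2l : (2 : Ordinal.{u}) < l.ord := lt_of_lt_of_le (natCast_lt_omega0 2) hω
  have h0l : (0 : Ordinal.{u}) < l.ord := two_pos.trans h2l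
  by_contra hn
  push Not at hn
  have h1 := hU.comp b hb _ (hodNe l.ord b) ?_
  · have h2 := inter_mem h2l hU hZ h1
    have e : Z ∩ toZ l.ord {a | ∀ i < b, a ∈ {a : Ordinal.{u} | a ≠ i}} = (∅ : ZFSet.{u}) := by
      rw [ZFSet.eq_empty]
      intro x hx
      rw [ZFSet.mem_inter, mem_toZ] at hx
      obtain ⟨hx, a, _, h3, rfl⟩ := hx
      rcases le_or_gt b a with h | h
      · exact hn a h hx
      · exact h3 a h rfl
    rw [e] at h2
    exact empty_notMem h0l hU h2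
  · intro d hd
    have hdl : d < l.ord := hd.trans hb
    have hsub : ({d.toZFSet} : ZFSet.{u}) ⊆ l.ord.toZFSet := by
      intro x hx
      rw [ZFSet.mem_singleton] at hx
      rw [hx]
      exact toZFSet_mem_toZFSet_iff.2 hdl
    have h3 : l.ord.toZFSet \ {d.toZFSet} ∈ U := by
      by_contra hcon
      exact hU.free d hdl ((hU.ult _ (HPJob.hod_single d) hsub).2 hcon)
    have e : toZ l.ord {a : Ordinal.{u} | a ≠ d} = l.ord.toZFSet \ {d.toZFSet} := by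
      ext x
      rw [ZFSet.mem_sdiff, mem_toZ, ZFSet.mem_singleton, mem_toZFSet_iff]
      constructor
      · rintro ⟨a, ha, h, rfl⟩
        exact ⟨⟨a, ha, rfl⟩, fun h' => h (toZFSet_injective h')⟩
      · rintro ⟨⟨a, ha, rfl⟩, h⟩
        exact ⟨a, ha, fun h' => h (congrArg toZFSet h'), rfl⟩
    rw [e]
    exact h3

/-- if `l` is measurable in HOD then the members of a small ordinal definable family, as sequences of
length `l` of subsets of some `g < l`, are constant on one unbounded set in HOD -/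
theorem const_unbounded {l : Cardinal.{u}} (hl : l.IsRegular) (hM : MeasH l.ord) {X : ZFSet.{u}}
    (hX : OD X) (hc : 2 ^ X.card < l) {g : Ordinal.{u}} (hg : g < l.ord) :
    ∃ Z : ZFSet.{u}, HOD Z ∧ Z ⊆ l.ord.toZFSet ∧ (∀ b < l.ord, ∃ a, b ≤ a ∧ a.toZFSet ∈ Z) ∧
      ∀ F ∈ X, ∀ a b : Ordinal.{u}, a.toZFSet ∈ Z → b.toZFSet ∈ Z → ∀ i < g,
      (ZFSet.pair a.toZFSet i.toZFSet ∈ F ↔ ZFSet.pair b.toZFSet i.toZFSet ∈ F) := by
  obtain ⟨U, hU⟩ := hM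
  obtain ⟨Z, hZ, h⟩ := const_on hl hU hX hc hg
  exact ⟨Z, hod_el hU.hod hZ, hU.sub Z hZ, unbounded hl hU hZ, h⟩

end Pool.Agent.NH86.HM
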