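import Pool.Agent.NH86.HM.Meas
import Pool.Agent.NH86.HD.DCA
import Pool.Agent.NH86.HD.VTH

/-!
# Families definable from a parameter in a small level (helper86, MP_e37c09_lc)
-/

set_option autoImplicit false

open Ordinal Cardinal Set

universe u

namespace Pool.Agent.NH86.HM

open Pool.Agent.NH86.HD

/-- the definition of the union of the families given by one formula and the elements of `V_ t` -/
theorem dfFam (φ : Fm) : Df.{u} fun s =>
    ∃ V, ((s 1).IsOrdinal ∧ V = ZFSet.vonNeumann (s 1).rank) ∧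
      ∀ F, (F ∈ s 0 ↔ ∃ x', x' ∈ V ∧ ∃ Y, (∀ y, (Sat φ (cns y (cns x' (fun n => s (n + 3)))) ↔ y = Y)) ∧
        Y.card ≤ (s 2).card ∧ F ∈ Y) := by
  have A5 : Df.{u} fun s => Sat φ (cns (s 0) (cns (s 2) (fun n => s (n + 8)))) := by
    have h : Df.{u} fun s => Sat φ s := ⟨φ, fun _ => Iff.rfl⟩
    refine (h.ren (cns 0 (cns 2 fun n => n + 8))).congr fun s => ?_
    have e : (fun n => s ((cns 0 (cns 2 fun n => n + 8) : ℕ → ℕ) n)) =
        cns (s 0) (cns (s 2) (fun n => s (n + 8))) := by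
      funext n
      rcases n with _ | _ | n <;> rfl
    rw [e]
  have A4 : Df.{u} fun s => (Sat φ (cns (s 0) (cns (s 2) (fun n => s (n + 8)))) ↔ s 0 = s 1) :=
    A5.iff (Df.eq 0 1)
  have A3 : Df.{u} fun s => ∀ y, (Sat φ (cns y (cns (s 1) (fun n => s (n + 7)))) ↔ y = s 0) :=
    Df.all (R := fun y s => (Sat φ (cns y (cns (s 1) (fun n => s (n + 7)))) ↔ y = s 0)) A4
  have A2 : Df.{u} fun s => (s 0).card ≤ (s 6).card :=
    Df.sub2 (R := fun x y => x.card ≤ y.card) t_DCA 0 6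
  have L3 : Df.{u} fun s => ∃ Y, (∀ y, (Sat φ (cns y (cns (s 0) (fun n => s (n + 6)))) ↔ y = Y)) ∧
      Y.card ≤ (s 5).card ∧ s 1 ∈ Y :=
    Df.ex (R := fun Y s => (∀ y, (Sat φ (cns y (cns (s 0) (fun n => s (n + 6)))) ↔ y = Y)) ∧
      Y.card ≤ (s 5).card ∧ s 1 ∈ Y) (A3.and (A2.and (Df.mem 2 0)))
  have L2 : Df.{u} fun s => ∃ x', x' ∈ s 1 ∧
      ∃ Y, (∀ y, (Sat φ (cns y (cns x' (fun n => s (n + 5)))) ↔ y = Y)) ∧
      Y.card ≤ (s 4).card ∧ s 0 ∈ Y :=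
    Df.ex (R := fun x' s => x' ∈ s 1 ∧
      ∃ Y, (∀ y, (Sat φ (cns y (cns x' (fun n => s (n + 5)))) ↔ y = Y)) ∧
      Y.card ≤ (s 4).card ∧ s 0 ∈ Y) ((Df.mem 0 2).and L3)
  have L1 : Df.{u} fun s => ∀ F, (F ∈ s 1 ↔ ∃ x', x' ∈ s 0 ∧
      ∃ Y, (∀ y, (Sat φ (cns y (cns x' (fun n => s (n + 4)))) ↔ y = Y)) ∧
      Y.card ≤ (s 3).card ∧ F ∈ Y) :=
    Df.all (R := fun F s => (F ∈ s 1 ↔ ∃ x', x' ∈ s 0 ∧
      ∃ Y, (∀ y, (Sat φ (cns y (cns x' (fun n => s (n + 4)))) ↔ y = Y)) ∧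
      Y.card ≤ (s 3).card ∧ F ∈ Y)) ((Df.mem 0 2).iff L2)
  exact Df.ex (R := fun V s => ((s 1).IsOrdinal ∧ V = ZFSet.vonNeumann (s 1).rank) ∧
      ∀ F, (F ∈ s 0 ↔ ∃ x', x' ∈ V ∧ ∃ Y, (∀ y, (Sat φ (cns y (cns x' (fun n => s (n + 3)))) ↔ y = Y)) ∧
        Y.card ≤ (s 2).card ∧ F ∈ Y))
    ((Df.sub2 (R := fun x y => x.IsOrdinal ∧ y = ZFSet.vonNeumann x.rank) t_VTH 2 0).and L1)

/-- a family definable from ordinals and an element of `V_ t` is contained in an ordinal definable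
family -/
theorem exists_fam {t : Ordinal.{u}} {x : ZFSet.{u}} (hx : x ∈ ZFSet.vonNeumann t) {X : ZFSet.{u}}
    (hX : ODp x X) : ∃ X' : ZFSet.{u}, OD X' ∧ X ⊆ X' ∧
      X'.card ≤ (ZFSet.vonNeumann t).card * X.card := by
  classical
  obtain ⟨φ, p, hφ⟩ := hX
  let J : Type u := Shrink.{u} (ZFSet.vonNeumann t)
  let e : J → ZFSet.{u} := fun j => ((equivShrink (ZFSet.vonNeumann t)).symm j : ZFSet.{u})
  let Q : ZFSet.{u} → ZFSet.{u} → Prop := fun x' Y =>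
    (∀ y, (Sat φ (cns y (cns x' (oz p))) ↔ y = Y)) ∧ Y.card ≤ X.card
  have hQ : ∀ x' Y Y', Q x' Y → Q x' Y' → Y = Y' := fun x' Y Y' h h' =>
    (h'.1 Y).1 ((h.1 Y).2 rfl)
  let f : J → ZFSet.{u} := fun j => if h : ∃ Y, Q (e j) Y then Classical.choose h else ∅
  have hf : ∀ j F, F ∈ f j ↔ ∃ Y, Q (e j) Y ∧ F ∈ Y := by
    intro j F
    by_cases h : ∃ Y, Q (e j) Y
    · have e1 : f j = Classical.choose h := dif_pos h
      rw [e1]
      constructor
      · intro hF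
        exact ⟨_, Classical.choose_spec h, hF⟩
      · rintro ⟨Y, hY, hF⟩
        rw [hQ _ _ _ (Classical.choose_spec h) hY]
        exact hF
    · have e1 : f j = ∅ := dif_neg h
      rw [e1]
      constructor
      · intro hF
        exact absurd hF (ZFSet.notMem_empty _)
      · rintro ⟨Y, hY, _⟩
        exact absurd ⟨Y, hY⟩ h
  obtain ⟨X', hX'⟩ : ∃ X' : ZFSet.{u}, X' = ZFSet.iUnion f := ⟨_, rfl⟩
  have hmem : ∀ F, F ∈ X' ↔ ∃ x', x' ∈ ZFSet.vonNeumann t ∧ ∃ Y, Q x' Y ∧ F ∈ Y := by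
    intro F
    rw [hX', ZFSet.mem_iUnion]
    constructor
    · rintro ⟨j, hj⟩
      exact ⟨e j, ((equivShrink (ZFSet.vonNeumann t)).symm j).2, (hf j F).1 hj⟩
    · rintro ⟨x', hx', h⟩
      refine ⟨equivShrink _ ⟨x', hx'⟩, (hf _ F).2 ?_⟩
      have e1 : e (equivShrink _ ⟨x', hx'⟩) = x' := by
        show (((equivShrink (ZFSet.vonNeumann t)).symm (equivShrink _ ⟨x', hx'⟩)) : ZFSet.{u}) = x'
        rw [Equiv.symm_apply_apply]
      rw [e1]
      exact h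
  refine ⟨X', ?_, ?_, ?_⟩
  · refine OD.of_df (dfFam φ) (cns t (cns X.card.ord p)) fun Y => ?_
    rw [oz_cns, oz_cns]
    show (∃ V, (t.toZFSet.IsOrdinal ∧ V = ZFSet.vonNeumann t.toZFSet.rank) ∧
      ∀ F, (F ∈ Y ↔ ∃ x', x' ∈ V ∧ ∃ Y, (∀ y, (Sat φ (cns y (cns x' (oz p))) ↔ y = Y)) ∧
        Y.card ≤ X.card.ord.toZFSet.card ∧ F ∈ Y)) ↔ Y = X'
    have hr : t.toZFSet.rank = t := rank_toZFSet t
    have hcd : X.card.ord.toZFSet.card = X.card := by
      rw [card_toZFSet, card_ord]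
    rw [hr, hcd]
    constructor
    · rintro ⟨W, ⟨-, rfl⟩, h⟩
      apply ZFSet.ext
      intro z
      rw [h, hmem]
      simp only [Q, and_assoc]
    · rintro rfl
      refine ⟨_, ⟨ZFSet.isOrdinal_toZFSet t, rfl⟩, fun F => ?_⟩
      rw [hmem]
      simp only [Q, and_assoc]
  · intro F hF
    exact (hmem F).2 ⟨x, hx, X, ⟨hφ, le_rfl⟩, hF⟩
  · have h1 : X'.card ≤ Cardinal.sum fun j => (f j).card := by
      have := ZFSet.lift_card_iUnion_le_sum_card (f := f)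
      rw [Cardinal.lift_id] at this
      rw [hX']
      exact this
    refine h1.trans ?_
    have h2 : (Cardinal.sum fun j => (f j).card) ≤ Cardinal.sum fun _ : J => X.card := by
      refine Cardinal.sum_le_sum _ _ fun j => ?_
      by_cases h : ∃ Y, Q (e j) Y
      · have e1 : f j = Classical.choose h := dif_pos h
        rw [e1]
        exact (Classical.choose_spec h).2
      · have e1 : f j = ∅ := dif_neg h
        rw [e1, ZFSet.card_empty]
        exact zero_le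
    refine h2.trans ?_
    rw [Cardinal.sum_const']
    exact le_rfl

theorem pow_mul_lt {a b c : Cardinal.{u}} (hc : ℵ₀ ≤ c) (ha : 2 ^ a < c) (hb : 2 ^ b < c) :
    2 ^ (a * b) < c := by
  by_cases h : a < ℵ₀ ∧ b < ℵ₀
  · exact lt_of_lt_of_le (Cardinal.power_lt_aleph0 (Cardinal.natCast_lt_aleph0)
      (Cardinal.mul_lt_aleph0 h.1 h.2)) hc
  · have h1 : a * b ≤ max a b := by
      rcases not_and_or.1 h with h | h
      · exact Cardinal.mul_le_max_of_aleph0_le_left (not_lt.1 h)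
      · exact Cardinal.mul_le_max_of_aleph0_le_right (not_lt.1 h)
    refine lt_of_le_of_lt (Cardinal.power_le_power_left two_ne_zero h1) ?_
    rcases le_total a b with h | h
    · rw [max_eq_right h]; exact hb
    · rw [max_eq_left h]; exact ha

/-- a family that is definable from ordinals and an element of a small level of the cumulative
hierarchy, with few members -/
def SmallFam (l : Cardinal.{u}) (X : ZFSet.{u}) : Prop := 2 ^ X.card < l ∧
  ∃ t : Ordinal.{u}, 2 ^ (ZFSet.vonNeumann t).card < l ∧ ∃ x ∈ ZFSet.vonNeumann t, ODp x X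

/-- the statement (B): every regular cardinal above `d` is measurable in HOD -/
def HypB (d : Cardinal.{u}) : Prop := ∀ l : Cardinal.{u}, d < l → l.IsRegular → MeasH l.ord

/-- all members of `X`, as sequences of length `l` of subsets of `g`, are constant on `Z` -/
def ConstOn (X : ZFSet.{u}) (g : Ordinal.{u}) (Z : ZFSet.{u}) : Prop :=
  ∀ F ∈ X, ∀ a b : Ordinal.{u}, a.toZFSet ∈ Z → b.toZFSet ∈ Z → ∀ i < g,
    (ZFSet.pair a.toZFSet i.toZFSet ∈ F ↔ ZFSet.pair b.toZFSet i.toZFSet ∈ F)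

/-- `Z` is a cofinal subset of `l` -/
def Unb (l : Ordinal.{u}) (Z : ZFSet.{u}) : Prop :=
  Z ⊆ l.toZFSet ∧ ∀ b < l, ∃ a, b ≤ a ∧ a.toZFSet ∈ Z

theorem main {l : Cardinal.{u}} (hl : l.IsRegular) {U : ZFSet.{u}} (hU : MeasU l.ord U)
    {X : ZFSet.{u}} (hX : SmallFam l X) {g : Ordinal.{u}} (hg : g < l.ord) :
    ∃ Z ∈ U, Unb l.ord Z ∧ ConstOn X g Z := by
  obtain ⟨h1, t, h2, x, hx, hXp⟩ := hX
  obtain ⟨X', h3, h4, h5⟩ := exists_fam hx hXp
  have h6 : 2 ^ X'.card < l := lt_of_le_of_lt (Cardinal.power_le_power_left two_ne_zero h5)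
    (pow_mul_lt hl.aleph0_le h2 h1)
  obtain ⟨Z, hZ, h⟩ := const_on hl hU h3 h6 hg
  exact ⟨Z, hZ, ⟨hU.sub Z hZ, unbounded hl hU hZ⟩, fun F hF => h F (h4 hF)⟩

end Pool.Agent.NH86.HM
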